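import Pool.Agent.J6H49.IP.Defs

/-!
# Immune sets, interactive proofs of exponential length
-/

set_option autoImplicit false

namespace Pool.Agent.J6H20.IM

open Pool.Agent.NPC Pool.Agent.H628R3.RO Pool.Agent.J6H49.IP

/-- The set `L` is immune for the class `𝒞`: it is infinite, and it has no infinite subset in
`𝒞`. -/
def Immune (𝒞 : Set (List Bool) → Prop) (L : Set (List Bool)) : Prop :=
  L.Infinite ∧ ∀ S : Set (List Bool), S ⊆ L → 𝒞 S → S.Finite

/-- The problem `L` has interactive proofs of length `N(n) ^ O(1)` (private coins, `N(n) ^ O(1)`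
rounds, verifier in time `N(n) ^ O(1)`) relative to the oracle `B`: for some constant `c`, the
input `x`, padded with `N |x| ^ c` ones, is decided in `IP`. -/
def InIPPow (N : ℕ → ℕ) (B : Oracle) (L : Set (List Bool)) : Prop :=
  ∃ (c : ℕ) (L' : Set (List Bool)), IsIP B L' ∧
    ∀ x : List Bool, x ∈ L ↔ pairBits x (List.replicate (N x.length ^ c) true) ∈ L'

/-- The strings of zeros. -/
def zeros : Set (List Bool) := {x | ∃ n : ℕ, x = List.replicate n false}

end Pool.Agent.J6H20.IM
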