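import Mathlib

/-!
# A conditional form of the lemma of Borel and Cantelli
-/

set_option autoImplicit false

namespace Pool.Agent.J6H20.IM

open MeasureTheory Filter

/-- If, as long as none of the events `F m`, `k ≤ m < i`, has happened, the probability of `E i` is
at most `K` times the probability of `F i` plus a summable error, then with probability one the
events `F i` happen infinitely often if the events `E i` do. -/
theorem bc {Ω : Type} [MeasurableSpace Ω] (μ : Measure Ω) [IsProbabilityMeasure μ]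
    (E F : ℕ → Set Ω) (hF : ∀ i, MeasurableSet (F i))
    {K : ℝ} (hK : 0 ≤ K) (ε : ℕ → ℝ) (hε : Summable ε) (hε0 : ∀ i, 0 ≤ ε i) (k₀ : ℕ)
    (h : ∀ k i, k₀ ≤ k → k ≤ i → μ.real (E i ∩ ⋂ m ∈ Finset.Ico k i, (F m)ᶜ) ≤
      K * μ.real (F i ∩ ⋂ m ∈ Finset.Ico k i, (F m)ᶜ) + ε i) :
    ∀ᵐ ω ∂μ, (∃ᶠ i in atTop, ω ∈ E i) → ∃ᶠ i in atTop, ω ∈ F i := by
  have h1 : ∀ k, k₀ ≤ k → ∀ᵐ ω ∂μ, ∀ᶠ i in atTop,
      ω ∉ (E (i + k) ∩ ⋂ m ∈ Finset.Ico k (i + k), (F m)ᶜ) := by
    intro k hk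
    refine ae_eventually_notMem ?_
    set H : ℕ → Set Ω := fun i => F (i + k) ∩ ⋂ m ∈ Finset.Ico k (i + k), (F m)ᶜ with hH
    have hHm : ∀ i, MeasurableSet (H i) := fun i =>
      (hF _).inter (Finset.measurableSet_biInter _ fun m _ => (hF m).compl)
    have hlt : ∀ i j, i < j → Disjoint (H i) (H j) := by
      intro i j hij
      rw [Set.disjoint_left]
      intro ω hi hj
      have h2 := hj.2
      rw [Set.mem_iInter₂] at h2
      exact h2 (i + k) (Finset.mem_Ico.2 ⟨by omega, by omega⟩) hi.1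
    have hdisj : Pairwise (Function.onFun Disjoint H) := by
      intro i j hij
      rcases lt_or_gt_of_ne hij with h2 | h2
      · exact hlt i j h2
      · exact (hlt j i h2).symm
    have hsum : ∑' i, μ (H i) ≤ 1 := by
      rw [← measure_iUnion hdisj hHm]
      exact prob_le_one
    have hle : ∀ i, μ (E (i + k) ∩ ⋂ m ∈ Finset.Ico k (i + k), (F m)ᶜ) ≤
        ENNReal.ofReal K * μ (H i) + ENNReal.ofReal (ε (i + k)) := by
      intro i
      have h2 := h k (i + k) hk (by omega)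
      rw [← ofReal_measureReal (measure_ne_top μ _), ← ofReal_measureReal (measure_ne_top μ (H i)),
        ← ENNReal.ofReal_mul hK, ← ENNReal.ofReal_add (mul_nonneg hK measureReal_nonneg)
          (hε0 _)]
      exact ENNReal.ofReal_le_ofReal h2
    have hfin : ENNReal.ofReal K * ∑' i, μ (H i) + ∑' i, ENNReal.ofReal (ε (i + k)) ≠ ⊤ := by
      refine ENNReal.add_ne_top.2 ⟨ENNReal.mul_ne_top ENNReal.ofReal_ne_top
        (ne_top_of_le_ne_top ENNReal.one_ne_top hsum), ?_⟩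
      exact ((summable_nat_add_iff k).2 hε).tsum_ofReal_ne_top
    refine ne_top_of_le_ne_top hfin ?_
    rw [← ENNReal.tsum_mul_left, ← ENNReal.tsum_add]
    exact ENNReal.tsum_le_tsum hle
  have h2 : ∀ᵐ ω ∂μ, ∀ k, k₀ ≤ k → ∀ᶠ i in atTop,
      ω ∉ (E (i + k) ∩ ⋂ m ∈ Finset.Ico k (i + k), (F m)ᶜ) := by
    rw [ae_all_iff]
    intro k
    by_cases hk : k₀ ≤ k
    · filter_upwards [h1 k hk] with ω hω _
      exact hω
    · exact ae_of_all _ fun ω h => absurd h hk
  filter_upwards [h2] with ω hω hE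
  by_contra hcon
  rw [not_frequently] at hcon
  obtain ⟨m₀, hm₀⟩ := eventually_atTop.1 hcon
  set k := max m₀ k₀ with hk
  obtain ⟨i₀, hi₀⟩ := eventually_atTop.1 (hω k (le_max_right _ _))
  obtain ⟨i, hi, hiE⟩ := frequently_atTop.1 hE (i₀ + k)
  have h3 := hi₀ (i - k) (by omega)
  rw [Nat.sub_add_cancel (by omega)] at h3
  refine h3 ⟨hiE, ?_⟩
  rw [Set.mem_iInter₂]
  intro m hm
  rw [Finset.mem_Ico] at hm
  exact hm₀ m (by omega)

end Pool.Agent.J6H20.IM
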