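import Pool.Agent.J6H49.IP.Game
import Pool.Agent.H591R3.PHG.Stage

/-!
# One root: acceptance without a hit against acceptance with a hit
-/

set_option autoImplicit false

namespace Pool.Agent.J6H20.IM

open Pool.Agent.J6H49.IP Finset

section

variable {V Y W P Ω : Type} [Fintype Ω]

/-- some prover wins with probability at least `2 / 3` -/
def Yes (g : Game V Y W P Ω) (v : V) (z : V → Y → W) : Prop :=
  ∃ s, 2 * Fintype.card Ω ≤ 3 * cnt (g.acc v z s)

/-- some prover wins with probability more than `1 / 3` -/
def Mid (g : Game V Y W P Ω) (v : V) (z : V → Y → W) : Prop :=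
  ∃ s, Fintype.card Ω < 3 * cnt (g.acc v z s)

variable [Fintype V] [DecidableEq V] [Fintype Y] [DecidableEq Y] [Fintype W] [DecidableEq W]

theorem sum_upd [Nonempty W] (v : V) (E F : (V → Y → W) → Prop) {K e : ℝ}
    (h : ∀ z, (cnt (fun x => E (Function.update z v x)) : ℝ) ≤
      K * cnt (fun x => F (Function.update z v x)) + e * Fintype.card (Y → W)) :
    (cnt E : ℝ) ≤ K * cnt F + e * Fintype.card (V → Y → W) := by
  classical
  have h1 := resample (V := V) (X := Y → W) v (fun z => if E z then (1 : ℝ) else 0)
  have h2 := resample (V := V) (X := Y → W) v (fun z => if F z then (1 : ℝ) else 0)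
  rw [← cnt_cast] at h1 h2
  have h3 : ∑ z : V → Y → W, (cnt (fun x => E (Function.update z v x)) : ℝ) ≤
      ∑ z : V → Y → W, (K * cnt (fun x => F (Function.update z v x)) +
        e * Fintype.card (Y → W)) := Finset.sum_le_sum fun z _ => h z
  rw [Finset.sum_add_distrib, ← Finset.mul_sum, Finset.sum_const, nsmul_eq_mul,
    Finset.card_univ] at h3
  simp only [cnt_cast] at h3 h1 h2
  rw [h1, h2] at h3
  simp only [cnt_cast]
  have hX : (0 : ℝ) < Fintype.card (Y → W) := by exact_mod_cast Fintype.card_pos
  refine le_of_mul_le_mul_left ?_ hX
  linarith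

theorem side1 [Nonempty Ω] [Nonempty W] (g : Game V Y W P Ω) (top : W) {r : ℕ}
    (hr : ∀ v z s ω, (g.Q v z s ω).card ≤ r) (hY : 18 * r ≤ Fintype.card Y)
    (hY0 : 0 < Fintype.card Y) (hWY : Fintype.card W ≤ Fintype.card Y) (v : V) :
    (cnt (fun z : V → Y → W => ¬ hit top (z v) ∧ Yes g v z) : ℝ) ≤
      2 * cnt (fun z : V → Y → W => hit top (z v) ∧ Mid g v z) := by
  have h0 := sum_upd (K := 2) (e := 0) v
    (fun z : V → Y → W => ¬ hit top (z v) ∧ Yes g v z)
    (fun z : V → Y → W => hit top (z v) ∧ Mid g v z) (fun z => by
      rw [zero_mul, add_zero]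
      have h1 := le_two_mul g top (fun _ : V => true) false hr hY hY0 hWY v z
      have hins : ∀ Q : Finset (V × Y), ins (fun _ : V => true) false v Q := fun Q i _ =>
        Or.inr (by simp)
      have h2 : cnt (fun x => ¬ hit top ((Function.update z v x) v) ∧
          Yes g v (Function.update z v x)) ≤
          cnt (fun x => Lp g top (fun _ : V => true) false v (Function.update z v x)) := by
        refine cnt_mono fun x hx => ?_
        obtain ⟨h3, s, h4⟩ := hx
        refine ⟨h3, s, ?_⟩
        simp only [hins, and_true]
        have h4' : 2 * Fintype.card Ω ≤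
            3 * cnt (fun ω => g.acc v (Function.update z v x) s ω) := h4
        omega
      have h3 : cnt (fun x => Bp g top (fun _ : V => true) false v (Function.update z v x)) ≤
          cnt (fun x => hit top ((Function.update z v x) v) ∧
            Mid g v (Function.update z v x)) := by
        refine cnt_mono fun x hx => ?_
        obtain ⟨h3, s, h4⟩ := hx
        refine ⟨h3, s, ?_⟩
        simp only [hins, and_true] at h4
        exact h4
      have h4 := h2.trans (h1.trans (Nat.mul_le_mul_left 2 h3))
      exact_mod_cast h4)
  rw [zero_mul, add_zero] at h0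
  exact h0

/-- the weight of a value which is not `top` and of the bit which says if it is raised -/
noncomputable def wq (top : W) (q : ℝ) (a : W) (b : Bool) : ℝ :=
  if a = top then 0 else if b = true then q else 1

theorem wq_sum (top : W) {q : ℝ} (hq : q * ((Fintype.card W : ℝ) - 1) = 1) (c : W) :
    (1 : ℝ) = ∑ a ∈ univ.filter (fun a : W × Bool => (if a.2 = true then top else a.1) = c),
      wq top q a.1 a.2 := by
  rw [Finset.sum_filter, Fintype.sum_prod_type]
  simp only [Fintype.sum_bool, if_true, Bool.false_eq_true, if_false]
  rw [Finset.sum_add_distrib]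
  have h2 : ∑ x : W, (if x = c then wq top q x false else 0) = wq top q c false := by
    rw [Finset.sum_ite_eq' univ c]
    simp
  rw [h2]
  by_cases hc : top = c
  · subst hc
    simp only [if_true]
    have h3 : ∑ x : W, wq top q x true = q * ((Fintype.card W : ℝ) - 1) := by
      have h4 : ∀ x : W, wq top q x true = q - (if x = top then q else 0) := by
        intro x
        unfold wq
        by_cases hx : x = top
        · simp [hx]
        · simp [hx]
      rw [Finset.sum_congr rfl fun x _ => h4 x, Finset.sum_sub_distrib,
        Finset.sum_ite_eq' univ top, Finset.sum_const, nsmul_eq_mul, Finset.card_univ]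
      simp
      ring
    rw [h3, hq]
    simp [wq]
  · simp only [if_neg hc, Finset.sum_const_zero, zero_add]
    have : c ≠ top := fun h => hc h.symm
    simp [wq, this]

theorem push_sum (top : W) {q : ℝ} (hq : q * ((Fintype.card W : ℝ) - 1) = 1)
    (Ψ : (Y → W) → ℝ) : ∑ x : Y → W, Ψ x = ∑ x : Y → W, ∑ b : Y → Bool,
      (∏ y, wq top q (x y) (b y)) * Ψ (fun y => if b y = true then top else x y) := by
  have h1 := Pool.Agent.H591R3.PHG.sum_push (G := Y) (A := W × Bool) (B := W)
    (fun _ a => if a.2 = true then top else a.1) (fun _ a => wq top q a.1 a.2) (fun _ _ => 1)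
    (fun _ c => wq_sum top hq c) Ψ
  simp only [Finset.prod_const_one, one_mul] at h1
  rw [← h1, ← (Equiv.arrowProdEquivProdArrow Y (fun _ => W) (fun _ => Bool)).symm.sum_comp,
    Fintype.sum_prod_type]
  rfl

theorem sum_b (q : ℝ) : ∑ b : Y → Bool, ∏ y, (if b y = true then q else 1) =
    (1 + q) ^ Fintype.card Y := by
  have h := Finset.prod_univ_sum (fun _ : Y => (univ : Finset Bool))
    (fun _ c => if c = true then q else (1 : ℝ))
  rw [Fintype.piFinset_univ] at h
  rw [← h]
  simp only [Fintype.sum_bool, if_true, Bool.false_eq_true, if_false, Finset.prod_const,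
    Finset.card_univ]
  rw [add_comm]

theorem sum_b_at {q : ℝ} (hq : 0 ≤ q) (y₀ : Y) :
    ∑ b : Y → Bool, (∏ y, (if b y = true then q else 1)) * (if b y₀ = true then 1 else 0) ≤
      q * (1 + q) ^ Fintype.card Y := by
  have h := Finset.prod_univ_sum (fun _ : Y => (univ : Finset Bool))
    (fun y c => if y = y₀ then (if c = true then q else (0 : ℝ)) else
      if c = true then q else (1 : ℝ))
  rw [Fintype.piFinset_univ] at h
  have h1 : ∀ b : Y → Bool, (∏ y, (if b y = true then q else 1)) *
      (if b y₀ = true then 1 else 0) = ∏ y, (if y = y₀ then (if b y = true then q else (0 : ℝ)) else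
      if b y = true then q else (1 : ℝ)) := by
    intro b
    by_cases hb : b y₀ = true
    · rw [if_pos hb, mul_one]
      refine Finset.prod_congr rfl fun y _ => ?_
      by_cases hy : y = y₀
      · subst hy
        simp [hb]
      · rw [if_neg hy]
    · rw [if_neg hb, mul_zero]
      symm
      refine Finset.prod_eq_zero (Finset.mem_univ y₀) ?_
      rw [if_pos rfl, if_neg hb]
  rw [Finset.sum_congr rfl fun b _ => h1 b, ← h]
  rw [← Finset.mul_prod_erase univ _ (Finset.mem_univ y₀)]
  simp only [if_true, Fintype.sum_bool, Bool.false_eq_true, if_false, add_zero]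
  refine mul_le_mul_of_nonneg_left ?_ hq
  have h2 : ∏ x ∈ univ.erase y₀, ((if x = y₀ then q else q) + if x = y₀ then 0 else 1) =
      ∏ x ∈ univ.erase y₀, (1 + q) := by
    refine Finset.prod_congr rfl fun y hy => ?_
    rw [if_neg (Finset.ne_of_mem_erase hy), if_neg (Finset.ne_of_mem_erase hy)]
    ring
  calc _ = ∏ x ∈ univ.erase y₀, (1 + q) := by
        refine Finset.prod_congr rfl fun y hy => ?_
        simp only [if_neg (Finset.ne_of_mem_erase hy)]
        ring
    _ ≤ _ := by
        rw [Finset.prod_const]
        refine pow_le_pow_right₀ (by linarith) ?_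
        exact (Finset.card_le_univ _)

theorem side2_one [Nonempty Ω] (g : Game V Y W P Ω) (top : W) {r : ℕ}
    (hr : ∀ v z s ω, (g.Q v z s ω).card ≤ r) {q : ℝ} (hq0 : 0 ≤ q)
    (hq : q * ((Fintype.card W : ℝ) - 1) = 1) (hZ : (1 + q) ^ Fintype.card Y ≤ 4)
    (v : V) (z : V → Y → W) :
    (cnt (fun x => hit top x ∧ ¬ Mid g v (Function.update z v x)) : ℝ) ≤
      3 * cnt (fun x => ¬ hit top x ∧ ¬ Yes g v (Function.update z v x)) +
        12 * r * q * Fintype.card (Y → W) := by
  classical
  have hΩ : (0 : ℝ) < Fintype.card Ω := by exact_mod_cast Fintype.card_pos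
  rw [cnt_cast, push_sum top hq]
  have key : ∀ x : Y → W, ∑ b : Y → Bool, (∏ y, wq top q (x y) (b y)) *
      (if hit top (fun y => if b y = true then top else x y) ∧
        ¬ Mid g v (Function.update z v (fun y => if b y = true then top else x y)) then
          (1 : ℝ) else 0) ≤
      3 * (if ¬ hit top x ∧ ¬ Yes g v (Function.update z v x) then 1 else 0) +
        12 * r * q := by
    intro x
    by_cases hx : hit top x
    · obtain ⟨y, hy⟩ := hx
      have h1 : ∀ b : Y → Bool, ∏ y, wq top q (x y) (b y) = 0 := fun b =>
        Finset.prod_eq_zero (Finset.mem_univ y) (by simp [wq, hy])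
      simp only [h1, zero_mul, Finset.sum_const_zero]
      positivity
    have hw : ∀ b : Y → Bool, ∏ y, wq top q (x y) (b y) =
        ∏ y, (if b y = true then q else 1) := by
      intro b
      refine Finset.prod_congr rfl fun y _ => ?_
      have : x y ≠ top := fun h => hx ⟨y, h⟩
      simp [wq, this]
    have hw0 : ∀ b : Y → Bool, 0 ≤ ∏ y, (if b y = true then q else 1) := fun b =>
      Finset.prod_nonneg fun y _ => by split_ifs <;> linarith
    simp only [hw]
    by_cases hY : Yes g v (Function.update z v x)
    · obtain ⟨s, hs⟩ := hY
      set Q : Ω → Finset (V × Y) := fun ω => g.Q v (Function.update z v x) s ω with hQ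
      have h1 : ∀ b : Y → Bool,
          (if hit top (fun y => if b y = true then top else x y) ∧
            ¬ Mid g v (Function.update z v (fun y => if b y = true then top else x y)) then
              (1 : ℝ) else 0) ≤ 3 / Fintype.card Ω * ∑ ω : Ω, ∑ y : Y,
                (if (v, y) ∈ Q ω then (1 : ℝ) else 0) * (if b y = true then 1 else 0) := by
        intro b
        have hnn : 0 ≤ ∑ ω : Ω, ∑ y : Y,
            (if (v, y) ∈ Q ω then (1 : ℝ) else 0) * (if b y = true then 1 else 0) :=
          Finset.sum_nonneg fun ω _ => Finset.sum_nonneg fun y _ => by split_ifs <;> norm_num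
        split_ifs with hb
        · have h2 : 3 * cnt (g.acc v (Function.update z v
              (fun y => if b y = true then top else x y)) s) ≤ Fintype.card Ω :=
            not_lt.1 fun h => hb.2 ⟨s, h⟩
          have h3 := cnt_le_add (E := g.acc v (Function.update z v x) s)
            (E' := g.acc v (Function.update z v (fun y => if b y = true then top else x y)) s)
            (E'' := fun ω => ∃ y, (v, y) ∈ Q ω ∧ b y = true) (fun ω h => by
              by_cases h4 : ∃ y, (v, y) ∈ Q ω ∧ b y = true
              · exact Or.inr h4
              · left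
                push Not at h4
                refine (g.stab v (Function.update z v x) (Function.update z v
                  (fun y => if b y = true then top else x y)) s ω (fun i hi => ?_)).2.2 h
                by_cases h5 : i.1 = v
                · have h6 : (v, i.2) ∈ Q ω := by
                    rw [← h5]
                    exact hi
                  have h7 := h4 i.2 h6
                  rw [h5, Function.update_self, Function.update_self, if_neg h7]
                · rw [Function.update_of_ne h5, Function.update_of_ne h5])
          have h4 : Fintype.card Ω ≤ 3 * cnt (fun ω => ∃ y, (v, y) ∈ Q ω ∧ b y = true) := by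
            omega
          have h5 : (cnt (fun ω => ∃ y, (v, y) ∈ Q ω ∧ b y = true) : ℝ) ≤ ∑ ω : Ω, ∑ y : Y,
              (if (v, y) ∈ Q ω then (1 : ℝ) else 0) * (if b y = true then 1 else 0) := by
            rw [cnt_cast]
            refine Finset.sum_le_sum fun ω _ => ?_
            have hn : ∀ y ∈ (univ : Finset Y), 0 ≤
                (if (v, y) ∈ Q ω then (1 : ℝ) else 0) * (if b y = true then 1 else 0) :=
              fun y _ => by split_ifs <;> norm_num
            split_ifs with h6
            · obtain ⟨y, h7, h8⟩ := h6
              have h9 := Finset.single_le_sum hn (Finset.mem_univ y)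
              rw [if_pos h7, if_pos h8, one_mul] at h9
              exact h9
            · exact Finset.sum_nonneg hn
          have h6 : (Fintype.card Ω : ℝ) ≤
              3 * (cnt (fun ω => ∃ y, (v, y) ∈ Q ω ∧ b y = true) : ℝ) := by exact_mod_cast h4
          rw [div_mul_eq_mul_div, le_div_iff₀ hΩ, one_mul]
          linarith
        · positivity
      calc ∑ b : Y → Bool, (∏ y, (if b y = true then q else 1)) *
            (if hit top (fun y => if b y = true then top else x y) ∧
              ¬ Mid g v (Function.update z v (fun y => if b y = true then top else x y)) then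
                (1 : ℝ) else 0) ≤
            ∑ b : Y → Bool, (∏ y, (if b y = true then q else 1)) * (3 / Fintype.card Ω *
              ∑ ω : Ω, ∑ y : Y,
                (if (v, y) ∈ Q ω then (1 : ℝ) else 0) * (if b y = true then 1 else 0)) :=
            Finset.sum_le_sum fun b _ => mul_le_mul_of_nonneg_left (h1 b) (hw0 b)
        _ = 3 / Fintype.card Ω * ∑ ω : Ω, ∑ y : Y, (if (v, y) ∈ Q ω then (1 : ℝ) else 0) *
              ∑ b : Y → Bool, (∏ y, (if b y = true then q else 1)) *
                (if b y = true then 1 else 0) := by
            simp only [Finset.mul_sum]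
            rw [Finset.sum_comm]
            refine Finset.sum_congr rfl fun ω _ => ?_
            rw [Finset.sum_comm]
            refine Finset.sum_congr rfl fun y _ => Finset.sum_congr rfl fun b _ => ?_
            ring
        _ ≤ 3 / Fintype.card Ω * ∑ _ω : Ω, (r : ℝ) * (q * 4) := by
            refine mul_le_mul_of_nonneg_left ?_ (by positivity)
            refine Finset.sum_le_sum fun ω _ => ?_
            calc ∑ y : Y, (if (v, y) ∈ Q ω then (1 : ℝ) else 0) *
                  ∑ b : Y → Bool, (∏ y, (if b y = true then q else 1)) *
                    (if b y = true then 1 else 0) ≤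
                  ∑ y : Y, (if (v, y) ∈ Q ω then (1 : ℝ) else 0) * (q * 4) := by
                  refine Finset.sum_le_sum fun y _ => mul_le_mul_of_nonneg_left ?_
                    (by split_ifs <;> norm_num)
                  exact (sum_b_at hq0 y).trans (mul_le_mul_of_nonneg_left hZ hq0)
              _ = ((univ.filter fun y : Y => (v, y) ∈ Q ω).card : ℝ) * (q * 4) := by
                  rw [← Finset.sum_mul, Finset.sum_boole]
              _ ≤ (r : ℝ) * (q * 4) := by
                  refine mul_le_mul_of_nonneg_right ?_ (by positivity)
                  have h2 : (univ.filter fun y : Y => (v, y) ∈ Q ω).card ≤ (Q ω).card := by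
                    refine Finset.card_le_card_of_injOn (fun y => (v, y)) ?_ ?_
                    · intro y hy
                      simpa using hy
                    · intro y _ y' _ h
                      exact (Prod.ext_iff.1 h).2
                  exact_mod_cast h2.trans (hr v _ s ω)
        _ = 12 * r * q := by
            rw [Finset.sum_const, Finset.card_univ, nsmul_eq_mul]
            field_simp
            ring
        _ ≤ _ := by
            have : (0 : ℝ) ≤ 3 * (if ¬ hit top x ∧ ¬ Yes g v (Function.update z v x) then
              1 else 0) := by split_ifs <;> norm_num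
            linarith
    · rw [if_pos ⟨hx, hY⟩, mul_one]
      have h1 : ∀ b : Y → Bool, (∏ y, (if b y = true then q else 1)) *
          (if hit top (fun y => if b y = true then top else x y) ∧
            ¬ Mid g v (Function.update z v (fun y => if b y = true then top else x y)) then
              (1 : ℝ) else 0) ≤ (∏ y, (if b y = true then q else 1)) -
                (if b = fun _ => false then 1 else 0) := by
        intro b
        by_cases hb : b = fun _ => false
        · subst hb
          have h2 : ¬ hit top (fun y => if (fun _ : Y => false) y = true then top else x y) := by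
            simpa using hx
          rw [if_neg (fun h => h2 h.1), if_pos rfl]
          simp
        · rw [if_neg hb, sub_zero]
          refine (mul_le_mul_of_nonneg_left ?_ (hw0 b)).trans (le_of_eq (mul_one _))
          split_ifs <;> norm_num
      refine (Finset.sum_le_sum fun b _ => h1 b).trans ?_
      rw [Finset.sum_sub_distrib, sum_b, Finset.sum_ite_eq' univ (fun _ : Y => false)]
      simp only [Finset.mem_univ, if_true]
      have : (0 : ℝ) ≤ 12 * r * q := by positivity
      linarith
  refine (Finset.sum_le_sum fun x _ => key x).trans (le_of_eq ?_)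
  rw [Finset.sum_add_distrib, ← Finset.mul_sum, ← cnt_cast, Finset.sum_const, nsmul_eq_mul,
    Finset.card_univ]
  ring

theorem side2 [Nonempty Ω] [Nonempty W] (g : Game V Y W P Ω) (top : W) {r : ℕ}
    (hr : ∀ v z s ω, (g.Q v z s ω).card ≤ r) {q : ℝ} (hq0 : 0 ≤ q)
    (hq : q * ((Fintype.card W : ℝ) - 1) = 1) (hZ : (1 + q) ^ Fintype.card Y ≤ 4) (v : V) :
    (cnt (fun z : V → Y → W => hit top (z v) ∧ ¬ Mid g v z) : ℝ) ≤
      3 * cnt (fun z : V → Y → W => ¬ hit top (z v) ∧ ¬ Yes g v z) +
        12 * r * q * Fintype.card (V → Y → W) := by
  refine sum_upd v _ _ fun z => ?_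
  have h := side2_one g top hr hq0 hq hZ v z
  simpa only [Function.update_self] using h

end

end Pool.Agent.J6H20.IM
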