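import Pool.Agent.J6H20.IM.Win
import Pool.Agent.J6H20.IM.Bc
import Pool.Agent.J6H49.IP.Main

/-!
# The events along a sparse sequence of lengths
-/

set_option autoImplicit false

namespace Pool.Agent.J6H20.IM

open Pool.Agent.NPC Pool.Agent.H628R3.RO Pool.Agent.J6H49.AM Filter Pool.Agent.J6H49.OP
open Pool.Agent.J6H49.IP MeasureTheory Pool.Agent.J6H54.RO
open Pool.Agent.TH678.RS (bt)
open Pool.Agent.Y626.WX (Cp)
open Pool.Agent.J6H49.PHC (oracle)
open Pool.Agent.J6H7.RO (ovw ovw_pos ovw_off)
open Pool.Agent.J6H49.BI (fair)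

theorem prob_le2 {I : Type} [Fintype I] [DecidableEq I] {ps : I → List Bool}
    (hps : Function.Injective ps) {Z Z' : Set Oracle} (hZ : MeasurableSet Z)
    (hZ' : MeasurableSet Z') {κ ε : ℝ}
    (h : ∀ A, (cnt (fun ω : I → Bool => ovw ps ω A ∈ Z) : ℝ) ≤
      κ * cnt (fun ω : I → Bool => ovw ps ω A ∈ Z') + ε * 2 ^ Fintype.card I) :
    prob Z ≤ κ * prob Z' + ε := by
  classical
  have h1 := Pool.Agent.J6H49.BI.prob_le_of_ovw2 (q := fair) hps hZ hZ' (κ := κ) (ε := ε)
    (fun A => by
      have h2 := h A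
      rw [cnt_cast, cnt_cast] at h2
      unfold H568R2.Ex
      have h3 : ∀ ω : I → Bool, (∏ i, Pool.Agent.H591R3.PHG.ber ((fair : unitInterval) : ℝ) (ω i)) =
          (1 / 2) ^ Fintype.card I := by
        intro ω
        have h4 : ∀ b, Pool.Agent.H591R3.PHG.ber ((fair : unitInterval) : ℝ) b = 1 / 2 := by
          intro b
          unfold Pool.Agent.H591R3.PHG.ber
          show (if b = true then (1 / 2 : ℝ) else 1 - 1 / 2) = 1 / 2
          split_ifs <;> norm_num
        simp only [h4, Finset.prod_const, Finset.card_univ]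
      simp only [h3]
      rw [← Finset.mul_sum, ← Finset.mul_sum]
      have h5 : (0 : ℝ) < (1 / 2) ^ Fintype.card I := by positivity
      have h6 : ((1 : ℝ) / 2) ^ Fintype.card I * 2 ^ Fintype.card I = 1 := by
        rw [← mul_pow]
        norm_num
      calc (1 / 2 : ℝ) ^ Fintype.card I * ∑ ω : I → Bool, (if ovw ps ω A ∈ Z then (1 : ℝ) else 0) ≤
          (1 / 2 : ℝ) ^ Fintype.card I * (κ * (∑ ω : I → Bool,
            if ovw ps ω A ∈ Z' then (1 : ℝ) else 0) + ε * 2 ^ Fintype.card I) :=
            mul_le_mul_of_nonneg_left h2 h5.le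
        _ = κ * ((1 / 2 : ℝ) ^ Fintype.card I * ∑ ω : I → Bool,
            if ovw ps ω A ∈ Z' then (1 : ℝ) else 0) +
            ε * ((1 / 2 : ℝ) ^ Fintype.card I * 2 ^ Fintype.card I) := by ring
        _ = _ := by rw [h6, mul_one])
  have h2 : ∀ X : Set Oracle, prob X = Pool.Agent.J6H7.RO.prob (fun _ => fair) X := by
    intro X
    unfold prob Pool.Agent.J6H7.RO.prob
    rw [ro_eq]
  rw [h2, h2]
  exact h1

theorem cnt_zero {Ω : Type} [Fintype Ω] {E : Ω → Prop} (h : ∀ ω, ¬ E ω) : cnt E = 0 := by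
  classical
  rw [cnt_eq]
  simp [h]

/-- a step for the window `n` -/
theorem step {n : ℕ} {E F G : Set Oracle} (hE : MeasurableSet E) (hF : MeasurableSet F)
    (hG : Loc {x | x.length ≤ n} G) {κ ε : ℝ} (hε : 0 ≤ ε)
    (h : ∀ A, (cnt (fun ω : Ix n → Bool => ovw wp ω A ∈ E) : ℝ) ≤
      κ * cnt (fun ω : Ix n → Bool => ovw wp ω A ∈ F) + ε * 2 ^ Fintype.card (Ix n)) :
    prob (E ∩ G) ≤ κ * prob (F ∩ G) + ε := by
  have hGm : MeasurableSet G := measurableSet_of_loc (finite_length_le n) hG
  refine prob_le2 (wp_inj n) (hE.inter hGm) (hF.inter hGm) fun A => ?_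
  have h1 : ∀ ω : Ix n → Bool, (ovw wp ω A ∈ G ↔ A ∈ G) := by
    intro ω
    refine hG _ _ fun x hx => ?_
    have hx' : x.length ≤ n := hx
    exact ovw_off _ _ fun i hi => by
      have := length_wp i
      rw [hi] at this
      omega
  by_cases hA : A ∈ G
  · have h2 : ∀ X : Set Oracle, (fun ω : Ix n → Bool => ovw wp ω A ∈ X ∩ G) =
        fun ω => ovw wp ω A ∈ X := by
      intro X
      funext ω
      exact propext ⟨fun h => h.1, fun h => ⟨h, (h1 ω).2 hA⟩⟩
    rw [h2, h2]
    exact h A
  · have h2 : ∀ X : Set Oracle, cnt (fun ω : Ix n → Bool => ovw wp ω A ∈ X ∩ G) = 0 :=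
      fun X => cnt_zero fun ω hω => hA ((h1 ω).1 hω.2)
    rw [h2, h2]
    have : (0 : ℝ) ≤ ε * 2 ^ Fintype.card (Ix n) := by positivity
    push_cast
    linarith

/-! ### The sequence -/

/-- the sparse sequence of lengths -/
def D : ℕ → ℕ
  | 0 => 1
  | i + 1 => 2 ^ (D i + 1)

theorem two_pow_le_D (i : ℕ) : 2 ^ i ≤ D i := by
  induction i with
  | zero => simp [D]
  | succ i ih =>
    rw [D]
    refine Nat.pow_le_pow_right (by norm_num) ?_
    have : i < 2 ^ i := Nat.lt_two_pow_self
    omega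

theorem lt_D (i : ℕ) : i < D i := Nat.lt_two_pow_self.trans_le (two_pow_le_D i)

theorem one_le_D (i : ℕ) : 1 ≤ D i := by
  have := lt_D i
  omega

theorem D_lt (i : ℕ) : D i < D (i + 1) := by
  rw [D]
  exact lt_of_lt_of_le Nat.lt_two_pow_self (Nat.pow_le_pow_right (by norm_num) (by omega))

theorem D_strictMono : StrictMono D := strictMono_nat_of_lt_succ D_lt

theorem D_tendsto : Tendsto D atTop atTop := D_strictMono.tendsto_atTop

/-- The general step: the events `F i` are local below the next length. -/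
theorem ae_of_step (E F : ℕ → Set Oracle) {κ : ℝ} (hκ : 0 ≤ κ)
    (hF : ∀ i, MeasurableSet (F i))
    (hloc : ∀ᶠ i in atTop, Loc {x | x.length ≤ D (i + 1)} (F i))
    (hstep : ∀ᶠ i in atTop, ∀ G : Set Oracle, Loc {x | x.length ≤ D i} G →
      prob (E i ∩ G) ≤ κ * prob (F i ∩ G) + 1 / (D i : ℝ)) :
    ∀ᵐ A ∂randomOracle, (∃ᶠ i in atTop, A ∈ E i) → ∃ᶠ i in atTop, A ∈ F i := by
  obtain ⟨k₀, hk₀⟩ := eventually_atTop.1 (hloc.and hstep)
  have hle : ∀ i, 1 / (D i : ℝ) ≤ (1 / 2) ^ i := by
    intro i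
    rw [one_div_pow]
    refine one_div_le_one_div_of_le (by positivity) ?_
    exact_mod_cast two_pow_le_D i
  refine bc randomOracle E F hF hκ (fun i => (1 / 2) ^ i)
    (summable_geometric_of_lt_one (by norm_num) (by norm_num)) (fun i => by positivity) k₀ ?_
  intro k i hk hki
  have h1 := (hk₀ i (by omega)).2 (⋂ m ∈ Finset.Ico k i, (F m)ᶜ) (by
    intro A A' hA
    simp only [Set.mem_iInter, Set.mem_compl_iff]
    refine forall_congr' fun m => forall_congr' fun hm => not_congr ?_
    rw [Finset.mem_Ico] at hm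
    refine (hk₀ m (by omega)).1 A A' fun x hx => hA x ?_
    have hx' : x.length ≤ D (m + 1) := hx
    exact hx'.trans (D_strictMono.monotone (by omega)))
  have h2 : prob (E i ∩ ⋂ m ∈ Finset.Ico k i, (F m)ᶜ) =
    randomOracle.real (E i ∩ ⋂ m ∈ Finset.Ico k i, (F m)ᶜ) := rfl
  have h3 : prob (F i ∩ ⋂ m ∈ Finset.Ico k i, (F m)ᶜ) =
    randomOracle.real (F i ∩ ⋂ m ∈ Finset.Ico k i, (F m)ᶜ) := rfl
  rw [h2, h3] at h1
  have h4 := hle i
  linarith

variable {α : ℕ → ℕ} {g : ℕ → Pool.Agent.H620R2.Gauge.SAlg × Polynomial ℕ}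
  {S : ℕ → Polynomial ℕ} {Φ : Oracle → Oracle}

/-- bound for the lengths of the questions, as a polynomial in the length of the input -/
noncomputable def lbI (M : Alg) (p : Polynomial ℕ) : Polynomial ℕ :=
  (lb M).comp (2 * Polynomial.X + 1 + (2 * p + 1 + p * (2 * p + 1)))

theorem lbI_eval (M : Alg) (p : Polynomial ℕ) (r : ℕ) :
    (lbI M p).eval r = (lb M).eval (il r (p.eval r)) := by
  simp only [lbI, il, Polynomial.eval_comp, Polynomial.eval_add, Polynomial.eval_mul,
    Polynomial.eval_ofNat, Polynomial.eval_X, Polynomial.eval_one]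

/-- bound for the number of the questions -/
noncomputable def rqI (M : Alg) (p : Polynomial ℕ) : Polynomial ℕ :=
  (p + 1) * M.p.comp (2 * Polynomial.X + 1 + (2 * p + 1 + p * (2 * p + 1)))

theorem rqI_eval (M : Alg) (p : Polynomial ℕ) (r : ℕ) : (rqI M p).eval r = rq M p r := by
  simp only [rqI, rq, il, Polynomial.eval_comp, Polynomial.eval_add, Polynomial.eval_mul,
    Polynomial.eval_ofNat, Polynomial.eval_X, Polynomial.eval_one]

theorem acc_congr {M : Alg} {p : Polynomial ℕ} {B B' : Oracle} {y : List Bool}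
    (h : ∀ q : List Bool, q.length ≤ (lbI M p).eval y.length → B' q = B q)
    (P : List (List Bool) → List Bool) :
    (pr (p.eval y.length) fun w => Accepts (val M B') P (p.eval y.length) y w) =
      pr (p.eval y.length) fun w => Accepts (val M B) P (p.eval y.length) y w := by
  refine pr_congr fun v => ?_
  refine tq_acc M P _ _ _ fun q hq => h q ?_
  rw [lbI_eval]
  exact tq_length M B P rfl (by rw [List.length_ofFn]) _ le_rfl q hq

theorem yes_loc (hc : Cp g S (bt α) Φ) (C : Oracle) (M : Alg) (p : Polynomial ℕ)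
    (y : List Bool) {A A' : Oracle}
    (h : ∀ u : List Bool, u.length ≤ (lbI M p).eval y.length → A u = A' u) :
    YesO M p (oracle Φ C A) y ↔ YesO M p (oracle Φ C A') y := by
  have key := acc_congr (M := M) (p := p) (y := y) (B := oracle Φ C A') (B' := oracle Φ C A)
    fun q hq => O_loc hc (ℓ := q.length) (fun _ _ => rfl) (fun u hu => h u (hu.trans hq)) le_rfl
  unfold YesO
  simp only [key]

theorem mid_loc (hc : Cp g S (bt α) Φ) (C : Oracle) (M : Alg) (p : Polynomial ℕ)
    (y : List Bool) {A A' : Oracle}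
    (h : ∀ u : List Bool, u.length ≤ (lbI M p).eval y.length → A u = A' u) :
    MidO M p (oracle Φ C A) y ↔ MidO M p (oracle Φ C A') y := by
  have key := acc_congr (M := M) (p := p) (y := y) (B := oracle Φ C A') (B' := oracle Φ C A)
    fun q hq => O_loc hc (ℓ := q.length) (fun _ _ => rfl) (fun u hu => h u (hu.trans hq)) le_rfl
  unfold MidO
  simp only [key]

theorem hl_loc {n : ℕ} {A A' : Oracle} (h : ∀ u : List Bool, u.length ≤ 3 * n + 2 → A u = A' u) :
    root n ∈ HL A ↔ root n ∈ HL A' := by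
  refine HL_congr fun u hu => h u ?_
  unfold root at hu
  rwa [List.length_replicate] at hu

/-- the radius of locality -/
noncomputable def rad (M : Alg) (p : Polynomial ℕ) (n r : ℕ) : ℕ :=
  3 * n + 2 + (lbI M p).eval r

/-- no hit, and the verifier accepts -/
def E1 (Φ : Oracle → Oracle) (C : Oracle) (M : Alg) (p : Polynomial ℕ) (n : ℕ)
    (y : List Bool) : Set Oracle := {A | root n ∉ HL A ∧ YesO M p (oracle Φ C A) y}

/-- a hit, and the verifier does not reject -/
def F1 (Φ : Oracle → Oracle) (C : Oracle) (M : Alg) (p : Polynomial ℕ) (n : ℕ)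
    (y : List Bool) : Set Oracle := {A | root n ∈ HL A ∧ MidO M p (oracle Φ C A) y}

/-- a hit, and the verifier rejects -/
def E2 (Φ : Oracle → Oracle) (C : Oracle) (M : Alg) (p : Polynomial ℕ) (n : ℕ)
    (y : List Bool) : Set Oracle := {A | root n ∈ HL A ∧ ¬ MidO M p (oracle Φ C A) y}

/-- no hit, and the verifier does not accept -/
def F2 (Φ : Oracle → Oracle) (C : Oracle) (M : Alg) (p : Polynomial ℕ) (n : ℕ)
    (y : List Bool) : Set Oracle := {A | root n ∉ HL A ∧ ¬ YesO M p (oracle Φ C A) y}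

theorem loc_E1 (hc : Cp g S (bt α) Φ) (C : Oracle) (M : Alg) (p : Polynomial ℕ) (n : ℕ)
    (y : List Bool) : Loc {x | x.length ≤ rad M p n y.length} (E1 Φ C M p n y) := by
  intro A A' h
  have h' : ∀ u : List Bool, u.length ≤ rad M p n y.length → A u = A' u := fun u hu => h u hu
  unfold rad at h'
  exact and_congr (not_congr (hl_loc fun u hu => h' u (by omega)))
    (yes_loc hc C M p y fun u hu => h' u (by omega))

theorem loc_F1 (hc : Cp g S (bt α) Φ) (C : Oracle) (M : Alg) (p : Polynomial ℕ) (n : ℕ)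
    (y : List Bool) : Loc {x | x.length ≤ rad M p n y.length} (F1 Φ C M p n y) := by
  intro A A' h
  have h' : ∀ u : List Bool, u.length ≤ rad M p n y.length → A u = A' u := fun u hu => h u hu
  unfold rad at h'
  exact and_congr (hl_loc fun u hu => h' u (by omega))
    (mid_loc hc C M p y fun u hu => h' u (by omega))

theorem loc_E2 (hc : Cp g S (bt α) Φ) (C : Oracle) (M : Alg) (p : Polynomial ℕ) (n : ℕ)
    (y : List Bool) : Loc {x | x.length ≤ rad M p n y.length} (E2 Φ C M p n y) := by
  intro A A' h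
  have h' : ∀ u : List Bool, u.length ≤ rad M p n y.length → A u = A' u := fun u hu => h u hu
  unfold rad at h'
  exact and_congr (hl_loc fun u hu => h' u (by omega))
    (not_congr (mid_loc hc C M p y fun u hu => h' u (by omega)))

theorem loc_F2 (hc : Cp g S (bt α) Φ) (C : Oracle) (M : Alg) (p : Polynomial ℕ) (n : ℕ)
    (y : List Bool) : Loc {x | x.length ≤ rad M p n y.length} (F2 Φ C M p n y) := by
  intro A A' h
  have h' : ∀ u : List Bool, u.length ≤ rad M p n y.length → A u = A' u := fun u hu => h u hu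
  unfold rad at h'
  exact and_congr (not_congr (hl_loc fun u hu => h' u (by omega)))
    (not_congr (yes_loc hc C M p y fun u hu => h' u (by omega)))

/-- the sizes -/
theorem sizes (hα : Monotone α) (hα' : Tendsto α atTop atTop) (M : Alg) (p : Polynomial ℕ)
    {y : ℕ → List Bool} {Q : Polynomial ℕ} (hy : ∀ᶠ i in atTop, (y i).length ≤ Q.eval (D i)) :
    ∀ᶠ i in atTop, (lb M).eval (il (y i).length (p.eval (y i).length)) ≤ lam α (D i) ∧
      18 * rq M p (y i).length ≤ 2 ^ D i ∧ rad M p (D i) (y i).length ≤ D (i + 1) ∧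
      12 * rq M p (y i).length * D i + 1 ≤ 2 ^ D i := by
  obtain ⟨n₀, h0⟩ := poly_le_two_pow (18 * (rqI M p).comp Q)
  obtain ⟨n₁, h1⟩ := poly_le_two_pow (3 * Polynomial.X + 2 + (lbI M p).comp Q)
  obtain ⟨n₂, h2⟩ := poly_le_two_pow (12 * (rqI M p).comp Q * Polynomial.X + 1)
  filter_upwards [hy, D_tendsto.eventually (le_lam hα hα' ((lbI M p).comp Q)),
    D_tendsto.eventually (eventually_ge_atTop n₀), D_tendsto.eventually (eventually_ge_atTop n₁),
    D_tendsto.eventually (eventually_ge_atTop n₂)] with i hi h3 h4 h5 h6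
  have e1 : (lbI M p).eval (y i).length ≤ (lbI M p).eval (Q.eval (D i)) := eval_mono _ hi
  have e2 : (rqI M p).eval (y i).length ≤ (rqI M p).eval (Q.eval (D i)) := eval_mono _ hi
  have h4' := h0 _ h4
  have h5' := h1 _ h5
  have h6' := h2 _ h6
  simp only [Polynomial.eval_mul, Polynomial.eval_comp, Polynomial.eval_add,
    Polynomial.eval_ofNat, Polynomial.eval_X, Polynomial.eval_one] at h3 h4' h5' h6'
  refine ⟨?_, ?_, ?_, ?_⟩
  · rw [← lbI_eval]
    exact e1.trans h3
  · rw [← rqI_eval]
    omega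
  · unfold rad
    have : 2 ^ D i ≤ D (i + 1) := by
      rw [D]
      exact Nat.pow_le_pow_right (by norm_num) (by omega)
    omega
  · rw [← rqI_eval]
    have : 12 * (rqI M p).eval (y i).length * D i ≤
        12 * (rqI M p).eval (Q.eval (D i)) * D i :=
      Nat.mul_le_mul_right _ (Nat.mul_le_mul_left _ e2)
    omega

theorem ae1 (hc : Cp g S (bt α) Φ) (hα : Monotone α) (hα' : Tendsto α atTop atTop) (C : Oracle)
    (M : Alg) (p : Polynomial ℕ) {y : ℕ → List Bool} {Q : Polynomial ℕ}
    (hy : ∀ᶠ i in atTop, (y i).length ≤ Q.eval (D i)) :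
    ∀ᵐ A ∂randomOracle, (∃ᶠ i in atTop, A ∈ E1 Φ C M p (D i) (y i)) →
      ∃ᶠ i in atTop, A ∈ F1 Φ C M p (D i) (y i) := by
  refine ae_of_step _ _ (κ := 2) (by norm_num)
    (fun i => measurableSet_of_loc (finite_length_le _) (loc_F1 hc C M p (D i) (y i))) ?_ ?_
  · filter_upwards [sizes hα hα' M p hy] with i hi A A' hA
    exact loc_F1 hc C M p (D i) (y i) A A' fun x hx => hA x (le_trans hx hi.2.2.1)
  · filter_upwards [sizes hα hα' M p hy] with i hi G hG
    refine step (measurableSet_of_loc (finite_length_le _) (loc_E1 hc C M p (D i) (y i)))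
      (measurableSet_of_loc (finite_length_le _) (loc_F1 hc C M p (D i) (y i))) hG
      (by positivity) fun A => ?_
    have h1 := win1 hc C M p (one_le_D i) (y i) hi.1 hi.2.1 A
    have h2 : (0 : ℝ) ≤ 1 / (D i : ℝ) * 2 ^ Fintype.card (Ix (D i)) := by positivity
    exact h1.trans (le_add_of_nonneg_right h2)

theorem ae2 (hc : Cp g S (bt α) Φ) (hα : Monotone α) (hα' : Tendsto α atTop atTop) (C : Oracle)
    (M : Alg) (p : Polynomial ℕ) {y : ℕ → List Bool} {Q : Polynomial ℕ}
    (hy : ∀ᶠ i in atTop, (y i).length ≤ Q.eval (D i)) :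
    ∀ᵐ A ∂randomOracle, (∃ᶠ i in atTop, A ∈ E2 Φ C M p (D i) (y i)) →
      ∃ᶠ i in atTop, A ∈ F2 Φ C M p (D i) (y i) := by
  refine ae_of_step _ _ (κ := 3) (by norm_num)
    (fun i => measurableSet_of_loc (finite_length_le _) (loc_F2 hc C M p (D i) (y i))) ?_ ?_
  · filter_upwards [sizes hα hα' M p hy] with i hi A A' hA
    exact loc_F2 hc C M p (D i) (y i) A A' fun x hx => hA x (le_trans hx hi.2.2.1)
  · filter_upwards [sizes hα hα' M p hy] with i hi G hG
    refine step (measurableSet_of_loc (finite_length_le _) (loc_E2 hc C M p (D i) (y i)))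
      (measurableSet_of_loc (finite_length_le _) (loc_F2 hc C M p (D i) (y i))) hG
      (by positivity) fun A => ?_
    have h1 := win2 hc C M p (one_le_D i) (y i) hi.1 A
    refine h1.trans ?_
    refine add_le_add le_rfl (mul_le_mul_of_nonneg_right ?_ (by positivity))
    have h2 : (1 : ℝ) < 2 ^ D i := one_lt_pow₀ (by norm_num) (by have := one_le_D i; omega)
    have h3 : (0 : ℝ) < D i := by exact_mod_cast one_le_D i
    have h4 : (12 : ℝ) * rq M p (y i).length * D i + 1 ≤ 2 ^ D i := by exact_mod_cast hi.2.2.2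
    rw [mul_one_div, div_le_div_iff₀ (by linarith) h3]
    linarith

theorem ae_no : ∀ᵐ A ∂randomOracle, ∃ᶠ i in atTop, root (D i) ∉ HL A := by
  have hl : ∀ n, Loc {x | x.length ≤ 3 * n + 2} {A : Oracle | root n ∉ HL A} := by
    intro n A A' h
    exact not_congr (hl_loc fun u hu => h u hu)
  have h := ae_of_step (fun _ => Set.univ) (fun i => {A | root (D i) ∉ HL A}) (κ := 4)
    (by norm_num) (fun i => measurableSet_of_loc (finite_length_le _) (hl (D i))) (by
      obtain ⟨n₁, h1⟩ := poly_le_two_pow (3 * Polynomial.X + 2)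
      filter_upwards [D_tendsto.eventually (eventually_ge_atTop n₁)] with i h5 A A' hA
      refine hl (D i) A A' fun x hx => hA x ?_
      have hx' : x.length ≤ 3 * D i + 2 := hx
      have h5' := h1 _ h5
      simp only [Polynomial.eval_mul, Polynomial.eval_add,
        Polynomial.eval_ofNat, Polynomial.eval_X] at h5'
      show x.length ≤ D (i + 1)
      refine (show x.length ≤ 2 ^ D i by omega).trans ?_
      rw [D]
      exact Nat.pow_le_pow_right (by norm_num) (by omega)) (by
      filter_upwards with i G hG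
      refine step MeasurableSet.univ
        (measurableSet_of_loc (finite_length_le _) (hl (D i))) hG (by positivity) fun A => ?_
      have h1 := win3 (one_le_D i) A
      have h2 : (0 : ℝ) ≤ 1 / (D i : ℝ) * 2 ^ Fintype.card (Ix (D i)) := by positivity
      refine le_trans ?_ (h1.trans (le_add_of_nonneg_right h2))
      have h3 := cnt_le_card (fun ω : Ix (D i) → Bool => ovw wp ω A ∈ (Set.univ : Set Oracle))
      rw [Fintype.card_fun, Fintype.card_bool] at h3
      exact_mod_cast h3)
  filter_upwards [h] with A hA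
  exact hA (Frequently.of_forall fun i => Set.mem_univ _)

theorem ae_hit : ∀ᵐ A ∂randomOracle, ∃ᶠ i in atTop, root (D i) ∈ HL A := by
  have hl : ∀ n, Loc {x | x.length ≤ 3 * n + 2} {A : Oracle | root n ∈ HL A} := by
    intro n A A' h
    exact hl_loc fun u hu => h u hu
  have h := ae_of_step (fun _ => Set.univ) (fun i => {A | root (D i) ∈ HL A}) (κ := 2)
    (by norm_num) (fun i => measurableSet_of_loc (finite_length_le _) (hl (D i))) (by
      obtain ⟨n₁, h1⟩ := poly_le_two_pow (3 * Polynomial.X + 2)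
      filter_upwards [D_tendsto.eventually (eventually_ge_atTop n₁)] with i h5 A A' hA
      refine hl (D i) A A' fun x hx => hA x ?_
      have hx' : x.length ≤ 3 * D i + 2 := hx
      have h5' := h1 _ h5
      simp only [Polynomial.eval_mul, Polynomial.eval_add,
        Polynomial.eval_ofNat, Polynomial.eval_X] at h5'
      show x.length ≤ D (i + 1)
      refine (show x.length ≤ 2 ^ D i by omega).trans ?_
      rw [D]
      exact Nat.pow_le_pow_right (by norm_num) (by omega)) (by
      filter_upwards with i G hG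
      refine step MeasurableSet.univ
        (measurableSet_of_loc (finite_length_le _) (hl (D i))) hG (by positivity) fun A => ?_
      have h1 := win4 (one_le_D i) A
      have h2 : (0 : ℝ) ≤ 1 / (D i : ℝ) * 2 ^ Fintype.card (Ix (D i)) := by positivity
      refine le_trans ?_ (h1.trans (le_add_of_nonneg_right h2))
      have h3 := cnt_le_card (fun ω : Ix (D i) → Bool => ovw wp ω A ∈ (Set.univ : Set Oracle))
      rw [Fintype.card_fun, Fintype.card_bool] at h3
      exact_mod_cast h3)
  filter_upwards [h] with A hA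
  exact hA (Frequently.of_forall fun i => Set.mem_univ _)

end Pool.Agent.J6H20.IM
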