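import Pool.Agent.J6H20.IM.Ev
import Pool.Agent.J6H20.IM.Defs
import Pool.Agent.J6H49.ES.Defs

/-!
# Immune sets relative to nearly collapsed oracles
-/

set_option autoImplicit false

namespace Pool.Agent.J6H20.IM

open Pool.Agent.NPC Pool.Agent.H628R3.RO Pool.Agent.J6H49.AM Filter Pool.Agent.J6H49.OP
open Pool.Agent.J6H49.IP MeasureTheory Pool.Agent.J6H54.RO
open Pool.Agent.TH678.GC (join)
open Pool.Agent.TH678.RS (bt)
open Pool.Agent.Y626.WX (Cp exists_cp)
open Pool.Agent.J6H49.PHC (oracle)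
open Pool.Agent.J6H49.ES (InNTimePow)

/-! ### Membership -/

/-- `NP` is closed under polynomial-time computable maps, restricted by a test. -/
theorem isNP_pre {B : Oracle} {L : Set (List Bool)} (h : IsNP B L)
    {f : List Bool → List Bool} (hf : Poly f) {t : List Bool → Bool}
    (ht : IsFP B (fun z => [t z])) (b : Bool) :
    IsNP B {z | (t z = true ∧ f z ∈ L) ∨ (t z = false ∧ b = true)} := by
  obtain ⟨V, p, hV, hx⟩ := h
  obtain ⟨q, hq⟩ := (IsFP.of_poly (A := B) hf).length_le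
  have hp1 : Poly (fun z : List Bool => (unpair z).1) := Poly.fst poly_unpair
  have hp2 : Poly (fun z : List Bool => (unpair z).2) := Poly.snd poly_unpair
  have h1 : IsFP B (fun z => [t (unpair z).1]) := IsFP.comp ht (IsFP.of_poly hp1)
  have h2 : IsFP B (fun z => V (pairBits (f (unpair z).1) (unpair z).2)) :=
    IsFP.comp hV (IsFP.of_poly (Pool.Agent.H622R2.poly_pairBits (hf.comp hp1) hp2))
  have h3 := IsFP.pair (IsFP.of_poly (A := B) Poly.id) (IsFP.pair h1 h2)
  have h4 : Poly (fun u : List Bool => if (unpair (unpair u).2).1 = [true] then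
      (if (unpair (unpair u).1).2.length ≤ p.eval (f (unpair (unpair u).1).1).length then
        (unpair (unpair u).2).2 else []) else [b]) := by
    have hu1 : Poly (fun u : List Bool => (unpair (unpair u).1).1) := hp1.comp hp1
    have hu2 : Poly (fun u : List Bool => (unpair (unpair u).1).2) := hp2.comp hp1
    have hu3 : Poly (fun u : List Bool => (unpair (unpair u).2).1) := hp1.comp hp2
    have hu4 : Poly (fun u : List Bool => (unpair (unpair u).2).2) := hp2.comp hp2
    refine Poly.ite (Poly.decide_eq hu3 (NPC.Poly.const _)) (Poly.ite (Poly.decide_le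
      (Poly.length hu2) ?_) hu4 (NPC.Poly.const [])) (NPC.Poly.const _)
    exact (UPoly.eval (UPoly.length (hf.comp hu1)) p).toPoly
  have h5 := IsFP.comp (IsFP.of_poly (A := B) h4) h3
  simp only [unpair_pairBits] at h5
  refine ⟨_, p.comp q, h5, fun z => ?_⟩
  simp only [unpair_pairBits, Polynomial.eval_comp, Set.mem_ofPred_eq]
  cases htz : t z
  · simp only [Bool.false_eq_true, false_and, true_and, false_or, List.cons.injEq,
      and_true, if_false]
    constructor
    · intro hb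
      exact ⟨[], by simp, hb⟩
    · rintro ⟨w, -, hw⟩
      exact hw
  · simp only [true_and, Bool.true_eq_false, false_and, or_false, if_true]
    rw [hx]
    constructor
    · rintro ⟨w, hw1, hw2⟩
      refine ⟨w, hw1.trans (eval_mono _ (hq z)), ?_⟩
      rw [if_pos hw1]
      exact hw2
    · rintro ⟨w, -, hw2⟩
      by_cases hw1 : w.length ≤ p.eval (f z).length
      · rw [if_pos hw1] at hw2
        exact ⟨w, hw1, hw2⟩
      · rw [if_neg hw1] at hw2
        exact absurd hw2 (by simp)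

open Classical in
/-- the test for the sparse lengths -/
noncomputable def dor : Oracle := fun x => decide (∃ i, x = root (D i))

theorem dor_iff (x : List Bool) : dor x = true ↔ ∃ i, x = root (D i) := by
  classical
  unfold dor
  exact decide_eq_true_iff

theorem isFP_dor {B : Oracle} {w : List Bool} (hw : ∀ x, B (w ++ x) = dor x)
    {f : List Bool → List Bool} (hf : Poly f) : IsFP B (fun z => [dor (f z)]) := by
  have h := IsFP.tt (A := B) (Q := fun z => [w ++ f z]) (H := fun p => p.2)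
    (Poly.cons (Poly.append (NPC.Poly.const _) hf) (NPC.Poly.const [])) (Poly.snd Poly.id)
  simpa only [List.map_cons, List.map_nil, hw] using h

/-! ### The sets -/

/-- the set without a hit, the short form -/
def La (A : Oracle) : Set (List Bool) := {x | (∃ i, x = root (D i)) ∧ x ∉ HL A}

/-- the set with a hit, the short form -/
def Ma (A : Oracle) : Set (List Bool) := {x | (∃ i, x = root (D i)) ∧ x ∈ HL A}

/-- the set without a hit, the exponential form -/
def Lb (A : Oracle) : Set (List Bool) :=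
  {x | (∃ i, x = root (D i)) ∧ root (2 ^ (x.length + 1)) ∉ HL A}

/-- the set with a hit, the exponential form -/
def Mb (A : Oracle) : Set (List Bool) :=
  {x | (∃ i, x = root (D i)) ∧ root (2 ^ (x.length + 1)) ∈ HL A}

theorem length_root (n : ℕ) : (root n).length = n := List.length_replicate

theorem root_inj {m n : ℕ} (h : root m = root n) : m = n := by
  have := congrArg List.length h
  rwa [length_root, length_root] at this

theorem freq_of_inf {S : Set (List Bool)} (hS : ∀ x ∈ S, ∃ i, x = root (D i))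
    (hi : S.Infinite) : ∃ᶠ i in atTop, root (D i) ∈ S := by
  by_contra hcon
  rw [not_frequently] at hcon
  obtain ⟨i₀, h0⟩ := eventually_atTop.1 hcon
  refine hi (((Set.finite_lt_nat i₀).image fun i => root (D i)).subset ?_)
  intro x hx
  obtain ⟨i, rfl⟩ := hS x hx
  refine ⟨i, ?_, rfl⟩
  by_contra hii
  exact h0 i (not_lt.1 hii) hx

theorem inf_of_freq {S : Set (List Bool)} (h : ∃ᶠ i in atTop, root (D i) ∈ S) :
    S.Infinite := by
  intro hf
  have h1 : {i : ℕ | root (D i) ∈ S}.Infinite := Nat.frequently_atTop_iff_infinite.1 h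
  refine h1 (hf.preimage fun i _ j _ hij => ?_)
  exact D_strictMono.injective (root_inj hij)

theorem La_inf {A : Oracle} (h : ∃ᶠ i in atTop, root (D i) ∉ HL A) : (La A).Infinite :=
  inf_of_freq (h.mono fun i hi => ⟨⟨i, rfl⟩, hi⟩)

theorem Ma_inf {A : Oracle} (h : ∃ᶠ i in atTop, root (D i) ∈ HL A) : (Ma A).Infinite :=
  inf_of_freq (h.mono fun i hi => ⟨⟨i, rfl⟩, hi⟩)

theorem exists_succ {P : ℕ → Prop} (h : ∃ᶠ j in atTop, P j) : ∃ᶠ i in atTop, P (i + 1) := by
  rw [frequently_atTop] at h ⊢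
  intro a
  obtain ⟨j, hj, hP⟩ := h (a + 1)
  exact ⟨j - 1, by omega, by rwa [Nat.sub_add_cancel (by omega)]⟩

theorem D_succ (i : ℕ) : 2 ^ ((root (D i)).length + 1) = D (i + 1) := by
  rw [length_root]
  rfl

theorem Lb_inf {A : Oracle} (h : ∃ᶠ i in atTop, root (D i) ∉ HL A) : (Lb A).Infinite :=
  inf_of_freq ((exists_succ h).mono fun i hi => ⟨⟨i, rfl⟩, by rwa [D_succ]⟩)

theorem Mb_inf {A : Oracle} (h : ∃ᶠ i in atTop, root (D i) ∈ HL A) : (Mb A).Infinite :=
  inf_of_freq ((exists_succ h).mono fun i hi => ⟨⟨i, rfl⟩, by rwa [D_succ]⟩)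

theorem yes_of {B : Oracle} {M : Alg} {V : List Bool → List Bool} {p : Polynomial ℕ}
    {L : Set (List Bool)} (hM : ∀ x, M.out B x = some (V x)) {y : List Bool}
    (h : CorrectAt V p L y) : (y ∈ L → YesO M p B y) ∧ (y ∉ L → ¬ MidO M p B y) := by
  have hV : val M B = V := val_eq hM
  unfold YesO MidO
  rw [hV]
  refine ⟨h.1, fun hy => ?_⟩
  rintro ⟨P, hP⟩
  have := h.2 hy P
  linarith

theorem yes_mid {M : Alg} {p : Polynomial ℕ} {B : Oracle} {y : List Bool}
    (h : YesO M p B y) : MidO M p B y := by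
  obtain ⟨P, hP⟩ := h
  exact ⟨P, lt_of_lt_of_le (by norm_num) hP⟩

variable {α : ℕ → ℕ} {g : ℕ → Pool.Agent.H620R2.Gauge.SAlg × Polynomial ℕ}
  {S : ℕ → Polynomial ℕ} {Φ : Oracle → Oracle}

/-- the inputs for the exponential form -/
def ye (c : ℕ) (j : ℕ) : List Bool :=
  pairBits (root (D (j - 1))) (List.replicate (D j ^ c) true)

theorem ye_le (c j : ℕ) : (ye c j).length ≤
    (2 * Polynomial.X + 1 + Polynomial.X ^ c : Polynomial ℕ).eval (D j) := by
  unfold ye
  rw [Pool.Agent.H628R3.RO.length_pairBits, length_root, List.length_replicate]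
  simp only [Polynomial.eval_add, Polynomial.eval_mul, Polynomial.eval_X, Polynomial.eval_pow,
    Polynomial.eval_ofNat, Polynomial.eval_one]
  have := D_strictMono.monotone (show j - 1 ≤ j by omega)
  omega

/-- the properties of the random oracle which are used -/
structure Fine (Φ : Oracle → Oracle) (C A : Oracle) : Prop where
  a1 : ∀ (M : Alg) (p : Polynomial ℕ), (∃ᶠ i in atTop, A ∈ E1 Φ C M p (D i) (root (D i))) →
    ∃ᶠ i in atTop, A ∈ F1 Φ C M p (D i) (root (D i))
  a2 : ∀ (M : Alg) (p : Polynomial ℕ), (∃ᶠ i in atTop, A ∈ E2 Φ C M p (D i) (root (D i))) →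
    ∃ᶠ i in atTop, A ∈ F2 Φ C M p (D i) (root (D i))
  b1 : ∀ (M : Alg) (p : Polynomial ℕ) (c : ℕ), (∃ᶠ i in atTop, A ∈ E1 Φ C M p (D i) (ye c i)) →
    ∃ᶠ i in atTop, A ∈ F1 Φ C M p (D i) (ye c i)
  b2 : ∀ (M : Alg) (p : Polynomial ℕ) (c : ℕ), (∃ᶠ i in atTop, A ∈ E2 Φ C M p (D i) (ye c i)) →
    ∃ᶠ i in atTop, A ∈ F2 Φ C M p (D i) (ye c i)
  no : ∃ᶠ i in atTop, root (D i) ∉ HL A
  hit : ∃ᶠ i in atTop, root (D i) ∈ HL A

theorem ae_fine (hc : Cp g S (bt α) Φ) (hα : Monotone α) (hα' : Tendsto α atTop atTop)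
    (C : Oracle) : ∀ᵐ A ∂randomOracle, Fine Φ C A := by
  have hr : ∀ᶠ i in atTop, (root (D i)).length ≤ (Polynomial.X : Polynomial ℕ).eval (D i) :=
    Eventually.of_forall fun i => by rw [length_root, Polynomial.eval_X]
  have he : ∀ c, ∀ᶠ j in atTop, (ye c j).length ≤
      (2 * Polynomial.X + 1 + Polynomial.X ^ c : Polynomial ℕ).eval (D j) := fun c =>
    Eventually.of_forall fun j => ye_le c j
  have h1 : ∀ᵐ A ∂randomOracle, ∀ (M : Alg) (p : Polynomial ℕ),
      (∃ᶠ i in atTop, A ∈ E1 Φ C M p (D i) (root (D i))) →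
        ∃ᶠ i in atTop, A ∈ F1 Φ C M p (D i) (root (D i)) := by
    rw [ae_all_iff]; intro M
    rw [ae_all_iff]; intro p
    exact ae1 hc hα hα' C M p hr
  have h2 : ∀ᵐ A ∂randomOracle, ∀ (M : Alg) (p : Polynomial ℕ),
      (∃ᶠ i in atTop, A ∈ E2 Φ C M p (D i) (root (D i))) →
        ∃ᶠ i in atTop, A ∈ F2 Φ C M p (D i) (root (D i)) := by
    rw [ae_all_iff]; intro M
    rw [ae_all_iff]; intro p
    exact ae2 hc hα hα' C M p hr
  have h3 : ∀ᵐ A ∂randomOracle, ∀ (M : Alg) (p : Polynomial ℕ) (c : ℕ),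
      (∃ᶠ i in atTop, A ∈ E1 Φ C M p (D i) (ye c i)) →
        ∃ᶠ i in atTop, A ∈ F1 Φ C M p (D i) (ye c i) := by
    rw [ae_all_iff]; intro M
    rw [ae_all_iff]; intro p
    rw [ae_all_iff]; intro c
    exact ae1 hc hα hα' C M p (he c)
  have h4 : ∀ᵐ A ∂randomOracle, ∀ (M : Alg) (p : Polynomial ℕ) (c : ℕ),
      (∃ᶠ i in atTop, A ∈ E2 Φ C M p (D i) (ye c i)) →
        ∃ᶠ i in atTop, A ∈ F2 Φ C M p (D i) (ye c i) := by
    rw [ae_all_iff]; intro M
    rw [ae_all_iff]; intro p
    rw [ae_all_iff]; intro c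
    exact ae2 hc hα hα' C M p (he c)
  filter_upwards [h1, h2, h3, h4, ae_no, ae_hit] with A a1 a2 a3 a4 a5 a6
  exact ⟨a1, a2, a3, a4, a5, a6⟩

variable {C A : Oracle}

theorem immune_La (h : Fine Φ C A) : Immune (IsIP (oracle Φ C A)) (La A) := by
  refine ⟨La_inf h.no, fun T hT hTI => ?_⟩
  by_contra hinf
  obtain ⟨V, p, ⟨M, hM⟩, hx⟩ := hTI
  have h1 := freq_of_inf (fun x hx => (hT hx).1) hinf
  have h2 := h.a1 M p (h1.mono fun i hi => ⟨(hT hi).2, (yes_of hM (hx _)).1 hi⟩)
  obtain ⟨i, h3, h4⟩ := h2.exists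
  by_cases hi : root (D i) ∈ T
  · exact (hT hi).2 h3
  · exact (yes_of hM (hx _)).2 hi h4

theorem immune_Ma (h : Fine Φ C A) :
    Immune (fun T => IsIP (oracle Φ C A) Tᶜ) (Ma A) := by
  refine ⟨Ma_inf h.hit, fun T hT hTI => ?_⟩
  by_contra hinf
  obtain ⟨V, p, ⟨M, hM⟩, hx⟩ := hTI
  have h1 := freq_of_inf (fun x hx => (hT hx).1) hinf
  have h2 := h.a2 M p (h1.mono fun i hi =>
    ⟨(hT hi).2, (yes_of hM (hx _)).2 (fun h => h hi)⟩)
  obtain ⟨i, h3, h4⟩ := h2.exists
  by_cases hi : root (D i) ∈ T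
  · exact h3 (hT hi).2
  · exact h4 ((yes_of hM (hx _)).1 hi)

/-- `2 ^ (n + 1)` -/
def NE (n : ℕ) : ℕ := 2 ^ (n + 1)

theorem ye_succ (c i : ℕ) : ye c (i + 1) =
    pairBits (root (D i)) (List.replicate (NE (root (D i)).length ^ c) true) := by
  unfold ye NE
  rw [Nat.add_sub_cancel, D_succ]

theorem immune_Lb (h : Fine Φ C A) : Immune (InIPPow NE (oracle Φ C A)) (Lb A) := by
  refine ⟨Lb_inf h.no, fun T hT hTI => ?_⟩
  by_contra hinf
  obtain ⟨c, L', ⟨V, p, ⟨M, hM⟩, hx⟩, hL'⟩ := hTI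
  have h1 := freq_of_inf (fun x hx => (hT hx).1) hinf
  have h2 : ∃ᶠ j in atTop, A ∈ E1 Φ C M p (D j) (ye c j) := by
    refine (tendsto_add_atTop_nat 1).frequently (h1.mono fun i hi => ?_)
    refine ⟨?_, (yes_of hM (hx _)).1 ?_⟩
    · have := (hT hi).2
      rwa [D_succ] at this
    · rw [ye_succ]
      exact (hL' _).1 hi
  obtain ⟨i, h3, h4⟩ := (exists_succ (h.b1 M p c h2)).exists
  by_cases hi : root (D i) ∈ T
  · have := (hT hi).2
    rw [D_succ] at this
    exact this h3
  · refine (yes_of hM (hx _)).2 ?_ h4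
    rw [ye_succ]
    exact fun h => hi ((hL' _).2 h)

theorem immune_Mb (h : Fine Φ C A) :
    Immune (fun T => InIPPow NE (oracle Φ C A) Tᶜ) (Mb A) := by
  refine ⟨Mb_inf h.hit, fun T hT hTI => ?_⟩
  by_contra hinf
  obtain ⟨c, L', ⟨V, p, ⟨M, hM⟩, hx⟩, hL'⟩ := hTI
  have h1 := freq_of_inf (fun x hx => (hT hx).1) hinf
  have h2 : ∃ᶠ j in atTop, A ∈ E2 Φ C M p (D j) (ye c j) := by
    refine (tendsto_add_atTop_nat 1).frequently (h1.mono fun i hi => ?_)
    refine ⟨?_, (yes_of hM (hx _)).2 ?_⟩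
    · have := (hT hi).2
      rwa [D_succ] at this
    · rw [ye_succ]
      exact fun h => (hL' _).2 h hi
  obtain ⟨i, h3, h4⟩ := (exists_succ (h.b2 M p c h2)).exists
  by_cases hi : root (D i) ∈ T
  · have := (hT hi).2
    rw [D_succ] at this
    exact h3 this
  · refine h4 ((yes_of hM (hx _)).1 ?_)
    rw [ye_succ]
    exact (hL' _).1 hi

theorem Immune.mono {P Q : Set (List Bool) → Prop} {L : Set (List Bool)} (h : Immune Q L)
    (hPQ : ∀ T, P T → Q T) : Immune P L := ⟨h.1, fun T hT hP => h.2 T hT (hPQ T hP)⟩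

theorem ip_of_n {N : ℕ → ℕ} {B : Oracle} {L : Set (List Bool)} (h : InNTimePow N B L) :
    InIPPow N B L := by
  obtain ⟨c, L', h1, h2⟩ := h
  exact ⟨c, L', isIP_of_isNP h1, h2⟩

/-- the oracle with the table of the lengths -/
theorem main (α : ℕ → ℕ) (hα : Monotone α) (hα' : Tendsto α atTop atTop) (C : Oracle) :
    ∃ O : Oracle → Oracle,
      (∀ A, NearlyCollapsed α (O A) ∧ Contains (O A) A ∧ Contains (O A) C) ∧
      ∀ᵐ A ∂randomOracle,
        (∃ L M : Set (List Bool), L ⊆ zeros ∧ M ⊆ zeros ∧ Disjoint L M ∧ IsP (O A) (L ∪ M) ∧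
          IsCoNP (O A) L ∧ IsNP (O A) M ∧ Immune (IsIP (O A)) L ∧
          Immune (fun T => IsIP (O A) Tᶜ) M) ∧
        ∃ L M : Set (List Bool), L ⊆ zeros ∧ M ⊆ zeros ∧ Disjoint L M ∧ IsP (O A) (L ∪ M) ∧
          InNTimePow NE (O A) Lᶜ ∧ InNTimePow NE (O A) M ∧ Immune (InIPPow NE (O A)) L ∧
          Immune (fun T => InIPPow NE (O A) Tᶜ) M := by
  obtain ⟨g, hg⟩ := Pool.Agent.H620R2.Gauge.CC.exists_enum
  obtain ⟨S, Φ, hc⟩ := exists_cp g (bt (slow2 α))
  refine ⟨oracle Φ (join C dor), fun A => ⟨?_, ⟨[false, false], fun x => rfl⟩,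
    ⟨[false, true, false], fun x => rfl⟩⟩, ?_⟩
  · exact nearly hg hα hc (join A (join C dor))
  filter_upwards [ae_fine hc (slow2_mono hα) (slow2_tendsto hα') (join C dor)] with A hA
  have hd : ∀ x, oracle Φ (join C dor) A ([false, true, true] ++ x) = dor x := fun x => rfl
  have hHL : IsNP (oracle Φ (join C dor) A) (HL A) :=
    isNP_lift [false, false] (fun x => rfl) (isNP_HL A)
  have ht := isFP_dor hd Poly.id
  have hP : IsP (oracle Φ (join C dor) A) {x | ∃ i, x = root (D i)} := by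
    refine ⟨_, ht, fun x => ?_⟩
    rw [Set.mem_ofPred_eq, ← dor_iff]
    simp
  have hp1 : Poly (fun z : List Bool => (unpair z).1) := Poly.fst poly_unpair
  have hp2 : Poly (fun z : List Bool => root (unpair z).2.length) :=
    p_replicate (UPoly.length (Poly.snd poly_unpair)) false
  have ht' := isFP_dor hd hp1
  refine ⟨⟨La A, Ma A, ?_, ?_, ?_, ?_, ?_, ?_, immune_La hA, immune_Ma hA⟩,
    ⟨Lb A, Mb A, ?_, ?_, ?_, ?_, ?_, ?_, immune_Lb hA, immune_Mb hA⟩⟩
  · rintro x ⟨⟨i, rfl⟩, -⟩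
    exact ⟨D i, rfl⟩
  · rintro x ⟨⟨i, rfl⟩, -⟩
    exact ⟨D i, rfl⟩
  · rw [Set.disjoint_left]
    exact fun x h1 h2 => h1.2 h2.2
  · have e : La A ∪ Ma A = {x | ∃ i, x = root (D i)} := by
      ext x
      constructor
      · rintro (h | h)
        · exact h.1
        · exact h.1
      · intro h
        by_cases hx : x ∈ HL A
        · exact Or.inr ⟨h, hx⟩
        · exact Or.inl ⟨h, hx⟩
    rw [e]
    exact hP
  · have h1 := isNP_pre hHL Poly.id ht true
    have e : {z : List Bool | (dor z = true ∧ z ∈ HL A) ∨ (dor z = false ∧ true = true)} =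
        (La A)ᶜ := by
      ext x
      by_cases hx : dor x = true
      · have hx' := (dor_iff x).1 hx
        simp only [La, Set.mem_ofPred_eq, Set.mem_compl_iff, hx, hx', true_and,
          Bool.true_eq_false, false_and, or_false, not_not]
      · have hx' : ¬ ∃ i, x = root (D i) := fun h => hx ((dor_iff x).2 h)
        have hx2 : dor x = false := by simpa using hx
        simp only [La, Set.mem_ofPred_eq, Set.mem_compl_iff, hx2, hx', Bool.false_eq_true,
          false_and, and_true, or_true, not_false_eq_true]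
    unfold IsCoNP
    rw [← e]
    exact h1
  · have h1 := isNP_pre hHL Poly.id ht false
    have e : {z : List Bool | (dor z = true ∧ z ∈ HL A) ∨ (dor z = false ∧ false = true)} =
        Ma A := by
      ext x
      simp only [Ma, Set.mem_ofPred_eq, dor_iff, Bool.false_eq_true, and_false, or_false]
    rw [← e]
    exact h1
  · rintro x ⟨⟨i, rfl⟩, -⟩
    exact ⟨D i, rfl⟩
  · rintro x ⟨⟨i, rfl⟩, -⟩
    exact ⟨D i, rfl⟩
  · rw [Set.disjoint_left]
    exact fun x h1 h2 => h1.2 h2.2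
  · have e : Lb A ∪ Mb A = {x | ∃ i, x = root (D i)} := by
      ext x
      constructor
      · rintro (h | h)
        · exact h.1
        · exact h.1
      · intro h
        by_cases hx : root (2 ^ (x.length + 1)) ∈ HL A
        · exact Or.inr ⟨h, hx⟩
        · exact Or.inl ⟨h, hx⟩
    rw [e]
    exact hP
  · refine ⟨1, _, isNP_pre hHL hp2 ht' true, fun x => ?_⟩
    simp only [unpair_pairBits, List.length_replicate, pow_one, NE, Set.mem_ofPred_eq,
      Set.mem_compl_iff, Lb]
    by_cases hx : dor x = true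
    · have hx' := (dor_iff x).1 hx
      simp only [hx, hx', true_and, Bool.true_eq_false, false_and, or_false, not_not]
    · have hx' : ¬ ∃ i, x = root (D i) := fun h => hx ((dor_iff x).2 h)
      have hx2 : dor x = false := by simpa using hx
      simp only [hx2, hx', Bool.false_eq_true, false_and, and_true, or_true,
        not_false_eq_true]
  · refine ⟨1, _, isNP_pre hHL hp2 ht' false, fun x => ?_⟩
    simp only [unpair_pairBits, List.length_replicate, pow_one, NE, Set.mem_ofPred_eq,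
      Mb, dor_iff, Bool.false_eq_true, and_false, or_false]

end Pool.Agent.J6H20.IM
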