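import Pool.Agent.J6H49.IP.Meas
import Pool.Agent.J6H20.IM.Cnt

/-!
# The window number `n` and an arbitrary input of the verifier
-/

set_option autoImplicit false

namespace Pool.Agent.J6H20.IM

open Pool.Agent.NPC Pool.Agent.H628R3.RO Pool.Agent.J6H49.AM Filter Pool.Agent.J6H49.OP
open Pool.Agent.J6H49.IP MeasureTheory
open Pool.Agent.TH678.RS (bt)
open Pool.Agent.Y626.WX (Cp)
open Pool.Agent.J6H49.PHC (oracle)
open Pool.Agent.J6H7.RO (ovw ovw_pos ovw_off)
open Pool.Agent.J6H49.BI (fair)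

/-- some prover makes the verifier accept `y` with probability at least `2 / 3` -/
def YesO (M : Alg) (p : Polynomial ℕ) (B : Oracle) (y : List Bool) : Prop :=
  ∃ P : List (List Bool) → List Bool,
    2 / 3 ≤ pr (p.eval y.length) fun w => Accepts (val M B) P (p.eval y.length) y w

/-- some prover makes the verifier accept `y` with probability more than `1 / 3` -/
def MidO (M : Alg) (p : Polynomial ℕ) (B : Oracle) (y : List Bool) : Prop :=
  ∃ P : List (List Bool) → List Bool,
    1 / 3 < pr (p.eval y.length) fun w => Accepts (val M B) P (p.eval y.length) y w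

variable {α : ℕ → ℕ} {g : ℕ → Pool.Agent.H620R2.Gauge.SAlg × Polynomial ℕ}
  {S : ℕ → Polynomial ℕ} {Φ : Oracle → Oracle}

/-- the game for the input `y` -/
noncomputable def game (hc : Cp g S (bt α) Φ) (C A : Oracle) (M : Alg) (p : Polynomial ℕ)
    {n : ℕ} (hn : 1 ≤ n) (y : List Bool)
    (hl : (lb M).eval (il y.length (p.eval y.length)) ≤ lam α n) :
    Game (Blk n) (Blk n) (Blk n) (List (List Bool) → List Bool) (Blk (p.eval y.length)) := by
  classical
  exact
  { acc := fun _ z P ω => Accepts (val M (oracle Φ C (Wn n z A))) P (p.eval y.length)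
      y (List.ofFn ω)
    Q := fun _ z P ω => Finset.univ.filter fun uy : Blk n × Blk n => ∃ i : Fin n,
      ([false, false] ++ wp (uy, i)) ∈ tq M (oracle Φ C (Wn n z A)) P
        (p.eval y.length) y (List.ofFn ω) (p.eval y.length + 1)
    stab := by
      intro v z z' P ω h
      have h1 : ∀ q ∈ tq M (oracle Φ C (Wn n z A)) P
          (p.eval y.length) y (List.ofFn ω) (p.eval y.length + 1),
          oracle Φ C (Wn n z' A) q = oracle Φ C (Wn n z A) q := by
        intro s hq
        have hlen := (tq_length M (oracle Φ C (Wn n z A)) P (ℓ := p.eval y.length)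
          (n := y.length) (x := y) (w := List.ofFn ω) rfl
          (by rw [List.length_ofFn]) _ le_rfl s hq).trans hl
        by_cases hpre : ∃ x, s = [false, false] ++ x
        · obtain ⟨x, rfl⟩ := hpre
          rw [O_pre, O_pre]
          by_cases hx : ∃ i : Ix n, wp i = x
          · obtain ⟨i, rfl⟩ := hx
            rw [Wn_wp, Wn_wp]
            have h2 := h i.1 (Finset.mem_filter.2 ⟨Finset.mem_univ _, i.2, hq⟩)
            rw [h2]
          · push Not at hx
            rw [Wn_off z' A hx, Wn_off z A hx]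
        · push Not at hpre
          refine O_late hc hn C (fun u hu => ?_) hlen hpre
          rw [Wn_short z' A hu, Wn_short z A hu]
      obtain ⟨h2, -⟩ := tq_stab M P (p.eval y.length) y (List.ofFn ω) _ h1
      exact ⟨by simp only [h2], tq_acc M P (p.eval y.length) y (List.ofFn ω) h1⟩ }

theorem game_card (hc : Cp g S (bt α) Φ) (C A : Oracle) (M : Alg) (p : Polynomial ℕ)
    {n : ℕ} (hn : 1 ≤ n) (y : List Bool)
    (hl : (lb M).eval (il y.length (p.eval y.length)) ≤ lam α n) (v : Blk n)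
    (z : Blk n → Blk n → Blk n) (P : List (List Bool) → List Bool)
    (ω : Blk (p.eval y.length)) :
    ((game hc C A M p hn y hl).Q v z P ω).card ≤ rq M p y.length := by
  classical
  have h1 := tq_card M (oracle Φ C (Wn n z A)) P (ℓ := p.eval y.length) (n := y.length)
    (x := y) (w := List.ofFn ω) rfl (by rw [List.length_ofFn]) _ le_rfl
  refine le_trans ?_ h1
  have h2 : ∀ uy ∈ (game hc C A M p hn y hl).Q v z P ω, ∃ i : Fin n,
      ([false, false] ++ wp (uy, i)) ∈ tq M (oracle Φ C (Wn n z A)) P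
        (p.eval y.length) y (List.ofFn ω) (p.eval y.length + 1) := by
    intro uy h
    exact (Finset.mem_filter.1 h).2
  have : Nonempty (Fin n) := ⟨⟨0, by omega⟩⟩
  choose! i hi using h2
  refine Finset.card_le_card_of_injOn (fun uy => [false, false] ++ wp (uy, i uy))
    (fun uy h => hi uy h) ?_
  intro uy _ uy' _ h
  have h3 : wp (uy, i uy) = wp (uy', i uy') := by
    simpa using h
  exact (Prod.ext_iff.1 (wp_inj n h3)).1

theorem yes_iff (hc : Cp g S (bt α) Φ) (C A : Oracle) (M : Alg) (p : Polynomial ℕ)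
    {n : ℕ} (hn : 1 ≤ n) (y : List Bool)
    (hl : (lb M).eval (il y.length (p.eval y.length)) ≤ lam α n) (v : Blk n)
    (z : Blk n → Blk n → Blk n) :
    Yes (game hc C A M p hn y hl) v z ↔ YesO M p (oracle Φ C (Wn n z A)) y := by
  refine exists_congr fun P => ?_
  rw [card_Blk, pr_cnt, le_div_iff₀ (by positivity)]
  have h : (2 / 3 * 2 ^ p.eval y.length ≤ (cnt (fun ω : Blk (p.eval y.length) =>
      Accepts (val M (oracle Φ C (Wn n z A))) P (p.eval y.length) y (List.ofFn ω)) : ℝ)) ↔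
      ((2 * 2 ^ p.eval y.length : ℕ) : ℝ) ≤ ((3 * cnt (fun ω : Blk (p.eval y.length) =>
      Accepts (val M (oracle Φ C (Wn n z A))) P (p.eval y.length) y (List.ofFn ω)) : ℕ) : ℝ) := by
    push_cast
    constructor <;> intro h <;> linarith
  rw [h, Nat.cast_le]
  rfl

theorem mid_iff (hc : Cp g S (bt α) Φ) (C A : Oracle) (M : Alg) (p : Polynomial ℕ)
    {n : ℕ} (hn : 1 ≤ n) (y : List Bool)
    (hl : (lb M).eval (il y.length (p.eval y.length)) ≤ lam α n) (v : Blk n)
    (z : Blk n → Blk n → Blk n) :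
    Mid (game hc C A M p hn y hl) v z ↔ MidO M p (oracle Φ C (Wn n z A)) y := by
  refine exists_congr fun P => ?_
  rw [card_Blk, pr_cnt, lt_div_iff₀ (by positivity)]
  have h : (1 / 3 * 2 ^ p.eval y.length < (cnt (fun ω : Blk (p.eval y.length) =>
      Accepts (val M (oracle Φ C (Wn n z A))) P (p.eval y.length) y (List.ofFn ω)) : ℝ)) ↔
      ((2 ^ p.eval y.length : ℕ) : ℝ) < ((3 * cnt (fun ω : Blk (p.eval y.length) =>
      Accepts (val M (oracle Φ C (Wn n z A))) P (p.eval y.length) y (List.ofFn ω)) : ℕ) : ℝ) := by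
    push_cast
    constructor <;> intro h <;> linarith
  rw [h, Nat.cast_lt]
  rfl

/-- the root -/
def root (n : ℕ) : List Bool := List.replicate n false

theorem root_eq (n : ℕ) : root n = List.ofFn (fun _ : Fin n => false) := by
  unfold root
  rw [List.ofFn_const]

theorem hit_root {n : ℕ} (z : Blk n → Blk n → Blk n) (A : Oracle) :
    root n ∈ HL (Wn n z A) ↔ hit (top n) (z fun _ => false) := by
  rw [root_eq, mem_HL_Wn]

theorem cnt_win {n : ℕ} (E : Oracle → Prop) (A : Oracle) :
    cnt (fun ω : Ix n → Bool => E (ovw wp ω A)) =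
      cnt (fun z : Blk n → Blk n → Blk n => E (Wn n z A)) :=
  (cnt_equiv (unc n) (fun ω => E (ovw wp ω A))).symm

theorem card_win (n : ℕ) : (Fintype.card (Blk n → Blk n → Blk n) : ℝ) =
    2 ^ Fintype.card (Ix n) := by
  have h := Fintype.card_congr (unc n)
  rw [h, Fintype.card_fun, Fintype.card_bool]
  push_cast
  rfl

theorem win1 (hc : Cp g S (bt α) Φ) (C : Oracle) (M : Alg) (p : Polynomial ℕ)
    {n : ℕ} (hn : 1 ≤ n) (y : List Bool)
    (hl : (lb M).eval (il y.length (p.eval y.length)) ≤ lam α n)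
    (hr : 18 * rq M p y.length ≤ 2 ^ n) (A : Oracle) :
    (cnt (fun ω : Ix n → Bool => root n ∉ HL (ovw wp ω A) ∧
      YesO M p (oracle Φ C (ovw wp ω A)) y) : ℝ) ≤
      2 * cnt (fun ω : Ix n → Bool => root n ∈ HL (ovw wp ω A) ∧
        MidO M p (oracle Φ C (ovw wp ω A)) y) := by
  rw [cnt_win (fun B => root n ∉ HL B ∧ YesO M p (oracle Φ C B) y),
    cnt_win (fun B => root n ∈ HL B ∧ MidO M p (oracle Φ C B) y)]
  have h := side1 (game hc C A M p hn y hl) (top n) (r := rq M p y.length)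
    (fun v z P ω => game_card hc C A M p hn y hl v z P ω) (by rw [card_Blk]; exact hr)
    (by rw [card_Blk]; positivity) le_rfl (fun _ => false)
  simpa only [hit_root, yes_iff, mid_iff] using h

theorem Zle {n : ℕ} (hn : 1 ≤ n) : (1 + 1 / ((2 : ℝ) ^ n - 1)) ^ (2 ^ n) ≤ 4 := by
  have h1 := sat_ge hn 1
  rw [pow_one, one_mul] at h1
  have h2 : (1 : ℝ) < 2 ^ n := one_lt_pow₀ (by norm_num) (by omega)
  have h3 : (1 + 1 / ((2 : ℝ) ^ n - 1)) * (1 - (1 / 2 : ℝ) ^ n) = 1 := by
    have h4 : (2 : ℝ) ^ n - 1 ≠ 0 := by linarith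
    rw [one_div_pow]
    field_simp
    ring
  have h5 : (1 + 1 / ((2 : ℝ) ^ n - 1)) ^ (2 ^ n) * (1 - (1 / 2 : ℝ) ^ n) ^ (2 ^ n) = 1 := by
    rw [← mul_pow, h3, one_pow]
  have h6 : (0 : ℝ) < (1 + 1 / ((2 : ℝ) ^ n - 1)) ^ (2 ^ n) := by
    have : (0 : ℝ) < (2 : ℝ) ^ n - 1 := by linarith
    positivity
  nlinarith

theorem win2 (hc : Cp g S (bt α) Φ) (C : Oracle) (M : Alg) (p : Polynomial ℕ)
    {n : ℕ} (hn : 1 ≤ n) (y : List Bool)
    (hl : (lb M).eval (il y.length (p.eval y.length)) ≤ lam α n) (A : Oracle) :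
    (cnt (fun ω : Ix n → Bool => root n ∈ HL (ovw wp ω A) ∧
      ¬ MidO M p (oracle Φ C (ovw wp ω A)) y) : ℝ) ≤
      3 * cnt (fun ω : Ix n → Bool => root n ∉ HL (ovw wp ω A) ∧
        ¬ YesO M p (oracle Φ C (ovw wp ω A)) y) +
      12 * rq M p y.length * (1 / ((2 : ℝ) ^ n - 1)) * 2 ^ Fintype.card (Ix n) := by
  rw [cnt_win (fun B => root n ∈ HL B ∧ ¬ MidO M p (oracle Φ C B) y),
    cnt_win (fun B => root n ∉ HL B ∧ ¬ YesO M p (oracle Φ C B) y), ← card_win]
  have h2 : (1 : ℝ) < 2 ^ n := one_lt_pow₀ (by norm_num) (by omega)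
  have h := side2 (game hc C A M p hn y hl) (top n) (r := rq M p y.length)
    (fun v z P ω => game_card hc C A M p hn y hl v z P ω)
    (q := 1 / ((2 : ℝ) ^ n - 1)) (div_nonneg zero_le_one (by linarith)) (by
      rw [card_Blk]
      push_cast
      exact div_mul_cancel₀ _ (by linarith)) (by rw [card_Blk]; exact Zle hn) (fun _ => false)
  simpa only [hit_root, yes_iff, mid_iff] using h

theorem win3 {n : ℕ} (hn : 1 ≤ n) (A : Oracle) :
    (2 : ℝ) ^ Fintype.card (Ix n) ≤ 4 * cnt (fun ω : Ix n → Bool => root n ∉ HL (ovw wp ω A)) := by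
  rw [cnt_win (fun B => root n ∉ HL B), ← card_win]
  have h1 := sum_upd (V := Blk n) (Y := Blk n) (W := Blk n) (K := 4) (e := 0) (fun _ => false)
    (fun _ => True) (fun z => ¬ hit (top n) (z fun _ => false)) (fun z => by
      have h2 := no_hit hn
      simp only [Function.update_self, zero_mul, add_zero]
      have h3 : cnt (fun _ : Blk n → Blk n => True) = Fintype.card (Blk n → Blk n) := by
        classical
        rw [cnt_eq]
        simp
      rw [h3]
      exact_mod_cast h2)
  have h3 : cnt (fun _ : Blk n → Blk n → Blk n => True) =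
      Fintype.card (Blk n → Blk n → Blk n) := by
    classical
    rw [cnt_eq]
    simp
  rw [h3, zero_mul, add_zero] at h1
  simpa only [hit_root] using h1

theorem win4 {n : ℕ} (hn : 1 ≤ n) (A : Oracle) :
    (2 : ℝ) ^ Fintype.card (Ix n) ≤ 2 * cnt (fun ω : Ix n → Bool => root n ∈ HL (ovw wp ω A)) := by
  classical
  rw [cnt_win (fun B => root n ∈ HL B), ← card_win]
  have h0 : (Fintype.card (Blk n → Blk n) : ℝ) ≤
      2 * cnt (fun x : Blk n → Blk n => hit (top n) x) := by
    have h1 : cnt (fun x : Blk n → Blk n => ¬ hit (top n) x) = (2 ^ n - 1) ^ 2 ^ n := by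
      have h2 : (fun x : Blk n → Blk n => ¬ hit (top n) x) = fun x => ∀ y, x y ≠ top n := by
        funext x
        unfold hit
        push Not
        rfl
      rw [h2, cnt_eq]
      have h3 : (Finset.univ.filter fun x : Blk n → Blk n => ∀ y, x y ≠ top n) =
          Fintype.piFinset fun _ : Blk n => Finset.univ.filter fun w : Blk n => w ≠ top n := by
        ext x
        simp [Fintype.mem_piFinset]
      rw [h3, Fintype.card_piFinset]
      have h4 : (Finset.univ.filter fun w : Blk n => w ≠ top n).card = 2 ^ n - 1 := by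
        rw [Finset.filter_ne', Finset.card_erase_of_mem (Finset.mem_univ _), Finset.card_univ,
          card_Blk]
      rw [h4, Finset.prod_const, Finset.card_univ, card_Blk]
    have h2 := cnt_add_not (fun _ : Blk n → Blk n => True) (fun x => hit (top n) x)
    simp only [true_and] at h2
    have h3 : cnt (fun _ : Blk n → Blk n => True) = Fintype.card (Blk n → Blk n) := by
      rw [cnt_eq]
      simp
    rw [h3, h1, Fintype.card_fun, card_Blk] at h2
    have h4 : 2 * (2 ^ n - 1) ^ 2 ^ n ≤ (2 ^ n) ^ 2 ^ n := by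
      have h5 : 1 ≤ 2 ^ n - 1 := by
        have : 2 ^ 1 ≤ 2 ^ n := Nat.pow_le_pow_right (by norm_num) hn
        omega
      have h6 := one_add_mul_le_pow (a := 1 / (((2 ^ n - 1 : ℕ) : ℝ))) (by
        have : (0 : ℝ) ≤ 1 / (((2 ^ n - 1 : ℕ) : ℝ)) := by positivity
        linarith) (2 ^ n)
      have h7 : (0 : ℝ) < ((2 ^ n - 1 : ℕ) : ℝ) := by exact_mod_cast h5
      have h8 : (((2 ^ n : ℕ)) : ℝ) = ((2 ^ n - 1 : ℕ) : ℝ) + 1 := by
        have : 2 ^ n = (2 ^ n - 1) + 1 := by omega
        exact_mod_cast this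
      have h9 : (2 : ℝ) ≤ (1 + 1 / (((2 ^ n - 1 : ℕ) : ℝ))) ^ 2 ^ n := by
        refine le_trans ?_ h6
        rw [h8]
        have : (((2 ^ n - 1 : ℕ) : ℝ) + 1) * (1 / ((2 ^ n - 1 : ℕ) : ℝ)) =
            1 + 1 / ((2 ^ n - 1 : ℕ) : ℝ) := by
          field_simp
        rw [this]
        have : (0 : ℝ) ≤ 1 / (((2 ^ n - 1 : ℕ) : ℝ)) := by positivity
        linarith
      have h10 : (2 : ℝ) * ((2 ^ n - 1 : ℕ) : ℝ) ^ 2 ^ n ≤ ((2 ^ n : ℕ) : ℝ) ^ 2 ^ n := by
        calc (2 : ℝ) * ((2 ^ n - 1 : ℕ) : ℝ) ^ 2 ^ n ≤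
            (1 + 1 / (((2 ^ n - 1 : ℕ) : ℝ))) ^ 2 ^ n * ((2 ^ n - 1 : ℕ) : ℝ) ^ 2 ^ n :=
              mul_le_mul_of_nonneg_right h9 (by positivity)
          _ = ((2 ^ n : ℕ) : ℝ) ^ 2 ^ n := by
              rw [← mul_pow, h8]
              congr 1
              field_simp
      exact_mod_cast h10
    have h5 : (2 ^ n) ^ 2 ^ n ≤ 2 * cnt (fun x : Blk n → Blk n => hit (top n) x) := by omega
    rw [Fintype.card_fun, card_Blk]
    exact_mod_cast h5
  have h1 := sum_upd (V := Blk n) (Y := Blk n) (W := Blk n) (K := 2) (e := 0) (fun _ => false)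
    (fun _ => True) (fun z => hit (top n) (z fun _ => false)) (fun z => by
      simp only [Function.update_self, zero_mul, add_zero]
      have h3 : cnt (fun _ : Blk n → Blk n => True) = Fintype.card (Blk n → Blk n) := by
        rw [cnt_eq]
        simp
      rw [h3]
      exact h0)
  have h3 : cnt (fun _ : Blk n → Blk n → Blk n => True) =
      Fintype.card (Blk n → Blk n → Blk n) := by
    rw [cnt_eq]
    simp
  rw [h3, zero_mul, add_zero] at h1
  simpa only [hit_root] using h1

end Pool.Agent.J6H20.IM
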